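import Pool.Agent.T2H72.Sch.Gauge

set_option autoImplicit false
set_option linter.unusedSectionVars false
open scoped InnerProductSpace ENNReal NNReal Topology
open Filter
open Pool.Agent.Helper526.Sch

namespace Pool.Agent.T2H72.Sch

universe u v

variable {H : Type u} [NormedAddCommGroup H] [InnerProductSpace ℂ H] [CompleteSpace H]

lemma trAbsPow_sum_le (b : HilbertBasis ℕ ℂ H) {p : ℝ} (hp0 : 0 < p) (hp : p ≤ 2) (L : ℕ)
    (X : ℕ → (H →L[ℂ] H)) (hX : ∀ j, IsCompactOperator (X j)) :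
    trAbsPow b p (∑ j ∈ Finset.range L, X j) ≤
      ∑ j ∈ Finset.range L, 2 ^ (j + 1) * trAbsPow b p (X j) := by
  induction L generalizing X with
  | zero => simp [trAbsPow_zero b hp0]
  | succ L ih =>
    rw [Finset.sum_range_succ', Finset.sum_range_succ']
    have h1 : IsCompactOperator (∑ j ∈ Finset.range L, X (j + 1) : H →L[ℂ] H) :=
      compact_sum _ _ fun j _ => hX (j + 1)
    refine (trAbsPow_add_le b h1 (hX 0) hp0 hp).trans ?_
    rw [mul_add]
    refine add_le_add ?_ (by simp)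
    refine (mul_le_mul_right (ih (fun j => X (j + 1)) (fun j => hX (j + 1))) 2).trans (le_of_eq ?_)
    rw [Finset.mul_sum]
    refine Finset.sum_congr rfl fun j _ => ?_
    rw [← mul_assoc]
    congr 1
    ring

section Blocks

variable {b : HilbertBasis ℕ ℂ H} {M : ℕ → ℕ} (hM : ∀ j, M j ≤ M (j + 1)) (C : ℕ → (H →L[ℂ] H))

/-- the diagonal blocks -/
noncomputable def Eb (b : HilbertBasis ℕ ℂ H) (M : ℕ → ℕ) (C : ℕ → (H →L[ℂ] H)) (j : ℕ) :
    H →L[ℂ] H :=
  blk b (M j) (M (j + 1)) * C j * blk b (M j) (M (j + 1))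

lemma mono_M {M : ℕ → ℕ} (hM : ∀ j, M j ≤ M (j + 1)) : Monotone M := monotone_nat_of_le_succ hM

include hM in
lemma star_Eb_mul {i j : ℕ} (hij : i < j) : star (Eb b M C i) * Eb b M C j = 0 := by
  have h1 : M (i + 1) ≤ M j := mono_M hM (by omega)
  have h2 := blk_mul_blk b (hM i) (hM j) h1
  calc star (Eb b M C i) * Eb b M C j
      = blk b (M i) (M (i + 1)) * star (C i) * (blk b (M i) (M (i + 1)) * blk b (M j) (M (j + 1))) *
          (C j * blk b (M j) (M (j + 1))) := by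
        unfold Eb
        rw [star_mul, star_mul, blk_star]
        noncomm_ring
    _ = 0 := by rw [h2]; simp

include hM in
lemma Eb_mul_star {i j : ℕ} (hij : i < j) : Eb b M C i * star (Eb b M C j) = 0 := by
  have h1 : M (i + 1) ≤ M j := mono_M hM (by omega)
  have h2 := blk_mul_blk b (hM i) (hM j) h1
  calc Eb b M C i * star (Eb b M C j)
      = blk b (M i) (M (i + 1)) * C i * (blk b (M i) (M (i + 1)) * blk b (M j) (M (j + 1))) *
          (star (C j) * blk b (M j) (M (j + 1))) := by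
        unfold Eb
        rw [star_mul, star_mul, blk_star]
        noncomm_ring
    _ = 0 := by rw [h2]; simp

lemma Eb_compact (hC : ∀ j, IsCompactOperator (C j)) (j : ℕ) : IsCompactOperator (Eb b M C j) :=
  ((hC j).clm_comp (blk b (M j) (M (j + 1)))).comp_clm (blk b (M j) (M (j + 1)))

include hM in
lemma trAbsPow_sum_Eb (hC : ∀ j, IsCompactOperator (C j)) {p : ℝ} (hp0 : 0 < p) (L : ℕ) :
    trAbsPow b p (∑ j ∈ Finset.range L, Eb b M C j) =
      ∑ j ∈ Finset.range L, trAbsPow b p (Eb b M C j) := by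
  induction L with
  | zero => simp [trAbsPow_zero b hp0]
  | succ L ih =>
    rw [Finset.sum_range_succ, Finset.sum_range_succ, ← ih]
    apply trAbsPow_add_disjoint b (compact_sum _ _ fun j _ => Eb_compact C hC j)
      (Eb_compact C hC L) _ _ hp0
    · rw [star_sum, Finset.sum_mul]
      exact Finset.sum_eq_zero fun i hi => star_Eb_mul hM C (Finset.mem_range.1 hi)
    · rw [Finset.sum_mul]
      exact Finset.sum_eq_zero fun i hi => Eb_mul_star hM C (Finset.mem_range.1 hi)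

lemma pr_mul_blk {m n k : ℕ} (h : m ≤ n) (h' : n ≤ k) : pr b k * blk b m n = blk b m n := by
  unfold blk
  rw [mul_sub, pr_mul_pr, pr_mul_pr, min_eq_right h', min_eq_right (h.trans h')]

lemma pr_mul_blk' {m n : ℕ} (h : m ≤ n) : pr b m * blk b m n = 0 := by
  unfold blk
  rw [mul_sub, pr_mul_pr, pr_mul_pr, min_eq_left h, min_self, sub_self]

include hM in
lemma norm_sum_Eb_sq_le (hC1 : ∀ j, ‖C j‖ ≤ 1) (L : ℕ) (x : H) :
    ‖(∑ j ∈ Finset.range L, Eb b M C j) x‖ ^ 2 ≤ ‖pr b (M L) x‖ ^ 2 := by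
  induction L with
  | zero =>
    have : (∑ j ∈ Finset.range 0, Eb b M C j) x = 0 := by
      rw [Finset.sum_range_zero]; rfl
    rw [this]
    simp
  | succ L ih =>
    set S := ∑ j ∈ Finset.range L, Eb b M C j with hS
    set R := blk b (M L) (M (L + 1)) with hR
    have h1 : (∑ j ∈ Finset.range (L + 1), Eb b M C j) x = S x + Eb b M C L x := by
      rw [Finset.sum_range_succ]; rfl
    have hPS : pr b (M L) * S = S := by
      rw [hS, Finset.mul_sum]
      refine Finset.sum_congr rfl fun j hj => ?_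
      have hj' : M (j + 1) ≤ M L := mono_M hM (by have := Finset.mem_range.1 hj; omega)
      unfold Eb
      rw [← mul_assoc, ← mul_assoc, pr_mul_blk (hM j) hj']
    have horth : ⟪S x, Eb b M C L x⟫_ℂ = 0 := by
      have e1 : S x = pr b (M L) (S x) := by
        conv_lhs => rw [← hPS]
        rfl
      have e2 : pr b (M L) (Eb b M C L x) = 0 := by
        have : pr b (M L) (Eb b M C L x) = (pr b (M L) * R * (C L * R)) x := rfl
        rw [this, hR, pr_mul_blk' (hM L)]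
        simp
      rw [e1, ← pr_star, inner_star_left, e2, inner_zero_right]
    have horth2 : ⟪pr b (M L) x, R x⟫_ℂ = 0 := by
      have e2 : pr b (M L) (R x) = 0 := by
        have : pr b (M L) (R x) = (pr b (M L) * R) x := rfl
        rw [this, hR, pr_mul_blk' (hM L)]
        simp
      rw [← pr_star, inner_star_left, e2, inner_zero_right]
    have hsum : pr b (M (L + 1)) x = pr b (M L) x + R x := by
      have : R x = pr b (M (L + 1)) x - pr b (M L) x := rfl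
      rw [this]
      abel
    rw [h1, hsum, sq, sq, norm_add_sq_eq_norm_sq_add_norm_sq_of_inner_eq_zero _ _ horth,
      norm_add_sq_eq_norm_sq_add_norm_sq_of_inner_eq_zero _ _ horth2, ← sq, ← sq, ← sq, ← sq]
    have h3 : ‖Eb b M C L x‖ ≤ ‖R x‖ := by
      have : Eb b M C L x = R (C L (R x)) := rfl
      rw [this]
      calc ‖R (C L (R x))‖ ≤ ‖R‖ * ‖C L (R x)‖ := R.le_opNorm _
        _ ≤ 1 * ‖C L (R x)‖ := by gcongr; exact norm_blk_le b (hM L)
        _ = ‖C L (R x)‖ := one_mul _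
        _ ≤ ‖C L‖ * ‖R x‖ := (C L).le_opNorm _
        _ ≤ 1 * ‖R x‖ := by gcongr; exact hC1 L
        _ = ‖R x‖ := one_mul _
    have h4 : ‖Eb b M C L x‖ ^ 2 ≤ ‖R x‖ ^ 2 := by gcongr
    linarith

include hM in
lemma norm_sum_Eb_le (hC1 : ∀ j, ‖C j‖ ≤ 1) (L : ℕ) :
    ‖∑ j ∈ Finset.range L, Eb b M C j‖ ≤ 1 := by
  refine ContinuousLinearMap.opNorm_le_bound _ zero_le_one fun x => ?_
  rw [one_mul]
  have h1 := norm_sum_Eb_sq_le (b := b) hM C hC1 L x
  have h2 := (sq_le_sq₀ (norm_nonneg _) (norm_nonneg _)).1 h1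
  refine h2.trans ?_
  calc ‖pr b (M L) x‖ ≤ ‖pr b (M L)‖ * ‖x‖ := (pr b (M L)).le_opNorm _
    _ ≤ 1 * ‖x‖ := by gcongr; exact norm_pr_le b _
    _ = ‖x‖ := one_mul _

end Blocks

lemma sum_half_pow (L : ℕ) : ∑ j ∈ Finset.range L, (1 / 2 : ℝ) ^ (j + 1) = 1 - (1 / 2) ^ L := by
  induction L with
  | zero => simp
  | succ L ih => rw [Finset.sum_range_succ, ih]; ring

lemma sum_half_pow_le (L : ℕ) : ∑ j ∈ Finset.range L, (1 / 2 : ℝ) ^ (j + 1) ≤ 1 := by
  rw [sum_half_pow]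
  have : (0 : ℝ) ≤ (1 / 2) ^ L := by positivity
  linarith

lemma norm_sum_le_of_Cb {A : ℕ → (H →L[ℂ] H)} {α : ℝ} {F : Finset ℕ} (hF : F.Nonempty)
    {s : ℕ → ℝ} (h : ‖Cb A α F s‖ ≤ 1) : ‖∑ n ∈ F, (s n : ℂ) • A n‖ ≤ (F.card : ℝ) ^ α := by
  have hc : (0 : ℝ) < F.card := by exact_mod_cast hF.card_pos
  rw [Cb, norm_smul, Complex.norm_real, Real.norm_of_nonneg (Real.rpow_nonneg hc.le _),
    Real.rpow_neg hc.le] at h
  have hc2 : 0 < (F.card : ℝ) ^ α := Real.rpow_pos_of_pos hc _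
  rw [inv_mul_le_iff₀ hc2, mul_one] at h
  exact h

/-- pairwise disjoint nonempty blocks with signs -/
def GoodBlocks (L : ℕ) (F : ℕ → Finset ℕ) (s : ℕ → ℕ → ℝ) : Prop :=
  (∀ j < L, (F j).Nonempty) ∧ (∀ i < L, ∀ j < L, i ≠ j → Disjoint (F i) (F j)) ∧
    ∀ j n, s j n = 1 ∨ s j n = -1

lemma goodBlocks_one {F : Finset ℕ} (hF : F.Nonempty) {s : ℕ → ℝ}
    (hs : ∀ n, s n = 1 ∨ s n = -1) : GoodBlocks 1 (fun _ => F) (fun _ => s) :=
  ⟨fun _ _ => hF, fun i hi j hj hij => by omega, fun _ => hs⟩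

lemma goodBlocks_of_hump {M : ℕ → ℕ} (hM : ∀ j, M j ≤ M (j + 1)) {F : ℕ → Finset ℕ}
    {s : ℕ → ℕ → ℝ} (h1 : ∀ j, (F j).Nonempty) (h2 : ∀ j, F j ⊆ Finset.Ico (M j) (M (j + 1)))
    (h3 : ∀ j n, s j n = 1 ∨ s j n = -1) (L : ℕ) : GoodBlocks L F s := by
  refine ⟨fun j _ => h1 j, ?_, h3⟩
  have key : ∀ i j, i < j → Disjoint (F i) (F j) := by
    intro i j hij
    rw [Finset.disjoint_left]
    intro n hi hj
    have e1 := Finset.mem_Ico.1 (h2 i hi)
    have e2 := Finset.mem_Ico.1 (h2 j hj)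
    have e3 : M (i + 1) ≤ M j := mono_M hM (by omega)
    omega
  intro i _ j _ hij
  rcases lt_or_gt_of_ne hij with h | h
  · exact key i j h
  · exact (key j i h).symm

/-- **Core of the case `0 < p < 2`.** -/
theorem core_lt_two (b : HilbertBasis ℕ ℂ H) {p α : ℝ} (hp0 : 0 < p) (hp : p ≤ 2)
    (hα : α ≠ 1 / 2) (hαp : p * α ≠ 1) (A : ℕ → (H →L[ℂ] H))
    (hA : ∀ n, IsCompactOperator (A n))
    (hval : ∀ (L : ℕ) (F : ℕ → Finset ℕ) (s : ℕ → ℕ → ℝ), 0 < L → GoodBlocks L F s →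
      trAbsPow b p (∑ j ∈ Finset.range L, Cb A α (F j) (s j)) =
        ENNReal.ofReal ((L : ℝ) ^ (p * α))) : False := by
  have hone : ∀ F : Finset ℕ, F.Nonempty → ∀ s : ℕ → ℝ, (∀ n, s n = 1 ∨ s n = -1) →
      trAbsPow b p (Cb A α F s) = 1 := by
    intro F hF s hs
    have := hval 1 (fun _ => F) (fun _ => s) one_pos (goodBlocks_one hF hs)
    simpa using this
  have hop : ∀ F : Finset ℕ, F.Nonempty → ∀ s : ℕ → ℝ, (∀ n, s n = 1 ∨ s n = -1) →
      ‖∑ n ∈ F, (s n : ℂ) • A n‖ ≤ (F.card : ℝ) ^ α := by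
    intro F hF s hs
    apply norm_sum_le_of_Cb hF
    apply norm_le_trAbsPow b (Cb_compact hA α F s) hp0 zero_le_one
    rw [hone F hF s hs]
    simp
  have hδ : ∀ j : ℕ, 0 < ENNReal.ofReal ((1 / 4 : ℝ) ^ (j + 1)) := fun j =>
    ENNReal.ofReal_pos.2 (by positivity)
  obtain ⟨M, F, s, hM, h1, h2, h3, h4⟩ := exists_hump (gauge_trAbsPow b hp0 hp) hA hα hop
    (fun F hF s hs => by rw [hone F hF s hs]; exact ENNReal.one_ne_top)
    (fun j => ENNReal.ofReal ((1 / 4 : ℝ) ^ (j + 1))) hδ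
  set C : ℕ → (H →L[ℂ] H) := fun j => Cb A α (F j) (s j) with hC
  have hCc : ∀ j, IsCompactOperator (C j) := fun j => Cb_compact hA α (F j) (s j)
  have hEc : ∀ j, IsCompactOperator (Eb b M C j) := fun j => Eb_compact C hCc j
  have hDc : ∀ j, IsCompactOperator (C j - Eb b M C j : H →L[ℂ] H) := fun j => (hCc j).sub (hEc j)
  have hC1 : ∀ j, trAbsPow b p (C j) = 1 := fun j => hone _ (h1 j) _ (h3 j)
  have hD : ∀ j, trAbsPow b p (C j - Eb b M C j) ≤ ENNReal.ofReal ((1 / 4 : ℝ) ^ (j + 1)) := h4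
  -- the error term
  have hDsum : ∀ L : ℕ, trAbsPow b p (∑ j ∈ Finset.range L, (C j - Eb b M C j)) ≤ 1 := by
    intro L
    refine (trAbsPow_sum_le b hp0 hp L _ hDc).trans ?_
    calc ∑ j ∈ Finset.range L, 2 ^ (j + 1) * trAbsPow b p (C j - Eb b M C j)
        ≤ ∑ j ∈ Finset.range L, ENNReal.ofReal ((1 / 2 : ℝ) ^ (j + 1)) := by
          refine Finset.sum_le_sum fun j _ => ?_
          calc 2 ^ (j + 1) * trAbsPow b p (C j - Eb b M C j)
              ≤ 2 ^ (j + 1) * ENNReal.ofReal ((1 / 4 : ℝ) ^ (j + 1)) := by gcongr; exact hD j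
            _ = ENNReal.ofReal ((1 / 2 : ℝ) ^ (j + 1)) := by
              have : (2 : ℝ≥0∞) ^ (j + 1) = ENNReal.ofReal ((2 : ℝ) ^ (j + 1)) := by
                rw [ENNReal.ofReal_pow (by norm_num)]; norm_num
              rw [this, ← ENNReal.ofReal_mul (by positivity), ← mul_pow]
              norm_num
      _ = ENNReal.ofReal (∑ j ∈ Finset.range L, (1 / 2 : ℝ) ^ (j + 1)) := by
          rw [ENNReal.ofReal_sum_of_nonneg (fun _ _ => by positivity)]
      _ ≤ ENNReal.ofReal 1 := ENNReal.ofReal_le_ofReal (sum_half_pow_le L)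
      _ = 1 := ENNReal.ofReal_one
  -- bounds on the blocks
  have hEle : ∀ j, trAbsPow b p (Eb b M C j) ≤ 1 := by
    intro j
    rw [← hC1 j]
    unfold Eb
    refine (trAbsPow_mul_right_le b (norm_blk_le b (hM j)) ?_ hp0 hp).trans
      (trAbsPow_mul_left_le b (norm_blk_le b (hM j)) (hCc j) hp0 hp)
    exact (hCc j).clm_comp (blk b (M j) (M (j + 1)))
  have hEge : ∀ j, ENNReal.ofReal (1 / 4) ≤ trAbsPow b p (Eb b M C j) := by
    intro j
    have e1 : C j = Eb b M C j + (C j - Eb b M C j) := by abel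
    have e2 := trAbsPow_add_le b (hEc j) (hDc j) hp0 hp
    rw [← e1, hC1 j] at e2
    have e3 : trAbsPow b p (C j - Eb b M C j) ≤ ENNReal.ofReal (1 / 4) := by
      refine (hD j).trans (ENNReal.ofReal_le_ofReal ?_)
      calc (1 / 4 : ℝ) ^ (j + 1) ≤ (1 / 4 : ℝ) ^ 1 :=
            pow_le_pow_of_le_one (by norm_num) (by norm_num) (by omega)
        _ = 1 / 4 := pow_one _
    have hEf : trAbsPow b p (Eb b M C j) ≠ ∞ := ne_top_of_le_ne_top ENNReal.one_ne_top (hEle j)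
    obtain ⟨t, ht0, ht⟩ : ∃ t : ℝ, 0 ≤ t ∧ trAbsPow b p (Eb b M C j) = ENNReal.ofReal t :=
      ⟨_, ENNReal.toReal_nonneg, (ENNReal.ofReal_toReal hEf).symm⟩
    rw [ht] at e2 ⊢
    have e4 : (1 : ℝ≥0∞) ≤ ENNReal.ofReal (2 * (t + 1 / 4)) := by
      refine e2.trans ?_
      rw [ENNReal.ofReal_mul (by norm_num), ENNReal.ofReal_add ht0 (by norm_num)]
      gcongr
      norm_num
    rw [ENNReal.one_le_ofReal] at e4
    apply ENNReal.ofReal_le_ofReal
    linarith
  have hEsum_le : ∀ L : ℕ, trAbsPow b p (∑ j ∈ Finset.range L, Eb b M C j) ≤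
      ENNReal.ofReal L := by
    intro L
    rw [trAbsPow_sum_Eb hM C hCc hp0 L]
    calc ∑ j ∈ Finset.range L, trAbsPow b p (Eb b M C j) ≤ ∑ j ∈ Finset.range L, 1 :=
          Finset.sum_le_sum fun j _ => hEle j
      _ = ENNReal.ofReal L := by simp
  have hEsum_ge : ∀ L : ℕ, ENNReal.ofReal (L * (1 / 4)) ≤
      trAbsPow b p (∑ j ∈ Finset.range L, Eb b M C j) := by
    intro L
    rw [trAbsPow_sum_Eb hM C hCc hp0 L]
    calc ENNReal.ofReal (L * (1 / 4)) = ∑ j ∈ Finset.range L, ENNReal.ofReal (1 / 4) := by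
          rw [Finset.sum_const, Finset.card_range, nsmul_eq_mul,
            ENNReal.ofReal_mul (by positivity), ENNReal.ofReal_natCast]
      _ ≤ _ := Finset.sum_le_sum fun j _ => hEge j
  have hCsum : ∀ L : ℕ, 0 < L → trAbsPow b p (∑ j ∈ Finset.range L, C j) =
      ENNReal.ofReal ((L : ℝ) ^ (p * α)) := fun L hL =>
    hval L F s hL (goodBlocks_of_hump hM h1 h2 h3 L)
  have hcC : ∀ L : ℕ, IsCompactOperator (∑ j ∈ Finset.range L, C j : H →L[ℂ] H) := fun L =>
    compact_sum _ _ fun j _ => hCc j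
  have hcE : ∀ L : ℕ, IsCompactOperator (∑ j ∈ Finset.range L, Eb b M C j : H →L[ℂ] H) := fun L =>
    compact_sum _ _ fun j _ => hEc j
  have hcD : ∀ L : ℕ, IsCompactOperator (∑ j ∈ Finset.range L, (C j - Eb b M C j) : H →L[ℂ] H) :=
    fun L => compact_sum _ _ fun j _ => hDc j
  -- (a)
  have ha : ∀ L : ℕ, 0 < L → (L : ℝ) ^ (p * α) ≤ 4 * L := by
    intro L hL
    have e1 : ∑ j ∈ Finset.range L, C j = (∑ j ∈ Finset.range L, Eb b M C j) +
        ∑ j ∈ Finset.range L, (C j - Eb b M C j) := by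
      rw [← Finset.sum_add_distrib]
      refine Finset.sum_congr rfl fun j _ => ?_
      abel
    have e2 := trAbsPow_add_le b (hcE L) (hcD L) hp0 hp
    rw [← e1, hCsum L hL] at e2
    have e3 : ENNReal.ofReal ((L : ℝ) ^ (p * α)) ≤ ENNReal.ofReal (2 * (L + 1)) := by
      refine e2.trans ?_
      rw [ENNReal.ofReal_mul (by norm_num), ENNReal.ofReal_add (by positivity) (by norm_num)]
      gcongr
      · norm_num
      · exact hEsum_le L
      · rw [ENNReal.ofReal_one]; exact hDsum L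
    rw [ENNReal.ofReal_le_ofReal_iff (by positivity)] at e3
    have : (1 : ℝ) ≤ L := by exact_mod_cast hL
    linarith
  -- (b)
  have hb : ∀ L : ℕ, 0 < L → (L : ℝ) ≤ 8 * ((L : ℝ) ^ (p * α) + 1) := by
    intro L hL
    have e1 : ∑ j ∈ Finset.range L, Eb b M C j = (∑ j ∈ Finset.range L, C j) +
        (((-1 : ℂ)) • ∑ j ∈ Finset.range L, (C j - Eb b M C j)) := by
      rw [Finset.sum_sub_distrib]
      simp
    have hcD' : IsCompactOperator
        (((-1 : ℂ)) • ∑ j ∈ Finset.range L, (C j - Eb b M C j) : H →L[ℂ] H) := (hcD L).smul _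
    have e2 := trAbsPow_add_le b (hcC L) hcD' hp0 hp
    rw [← e1, hCsum L hL, trAbsPow_smul b (Cpt.of_compact (hcD L)).1 hp0] at e2
    have e3 : ENNReal.ofReal (L * (1 / 4)) ≤ ENNReal.ofReal (2 * ((L : ℝ) ^ (p * α) + 1)) := by
      refine (hEsum_ge L).trans (e2.trans ?_)
      rw [ENNReal.ofReal_mul (by norm_num), ENNReal.ofReal_add (by positivity) (by norm_num)]
      gcongr
      · norm_num
      · simpa using hDsum L
    rw [ENNReal.ofReal_le_ofReal_iff (by positivity)] at e3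
    linarith
  rcases lt_or_gt_of_ne hαp with h | h
  · -- `pα < 1`
    have ht : Tendsto (fun L : ℕ => (L : ℝ) ^ (1 - p * α)) atTop atTop :=
      (tendsto_rpow_atTop (by linarith)).comp tendsto_natCast_atTop_atTop
    have ht2 : Tendsto (fun L : ℕ => 8 * ((L : ℝ) ^ (-(1 - p * α)) + (L : ℝ) ^ (-(1 : ℝ)))) atTop
        (𝓝 (8 * (0 + 0))) :=
      (((tendsto_rpow_neg_atTop (by linarith : 0 < 1 - p * α)).comp
        tendsto_natCast_atTop_atTop).add ((tendsto_rpow_neg_atTop (one_pos)).comp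
        tendsto_natCast_atTop_atTop)).const_mul _
    rw [add_zero, mul_zero] at ht2
    obtain ⟨L, hL, hL1⟩ := ((ht2.eventually (eventually_lt_nhds (show (0 : ℝ) < 1 by norm_num))).and
      (eventually_ge_atTop 1)).exists
    have hLpos : (0 : ℝ) < L := by exact_mod_cast hL1
    have e1 := hb L hL1
    have e2 : (L : ℝ) ^ (p * α) = L * (L : ℝ) ^ (-(1 - p * α)) := by
      nth_rewrite 2 [← Real.rpow_one (L : ℝ)]
      rw [← Real.rpow_add hLpos]
      congr 1
      ring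
    have e3 : (1 : ℝ) = L * (L : ℝ) ^ (-(1 : ℝ)) := by
      rw [Real.rpow_neg_one]
      field_simp
    rw [e2] at e1
    have e4 : (L : ℝ) ≤ L * (8 * ((L : ℝ) ^ (-(1 - p * α)) + (L : ℝ) ^ (-(1 : ℝ)))) := by
      calc (L : ℝ) ≤ 8 * (L * (L : ℝ) ^ (-(1 - p * α)) + 1) := e1
        _ = 8 * (L * (L : ℝ) ^ (-(1 - p * α)) + L * (L : ℝ) ^ (-(1 : ℝ))) := by rw [← e3]
        _ = _ := by ring
    nlinarith
  · -- `pα > 1`
    have ht : Tendsto (fun L : ℕ => (L : ℝ) ^ (p * α - 1)) atTop atTop :=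
      (tendsto_rpow_atTop (by linarith)).comp tendsto_natCast_atTop_atTop
    obtain ⟨L, hL, hL1⟩ := ((ht.eventually (eventually_gt_atTop (4 : ℝ))).and
      (eventually_ge_atTop 1)).exists
    have hLpos : (0 : ℝ) < L := by exact_mod_cast hL1
    have e1 := ha L hL1
    have e2 : (L : ℝ) ^ (p * α) = L * (L : ℝ) ^ (p * α - 1) := by
      nth_rewrite 2 [← Real.rpow_one (L : ℝ)]
      rw [← Real.rpow_add hLpos]
      congr 1
      ring
    rw [e2] at e1
    nlinarith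

/-- **Core of the case `p = ∞`.** -/
theorem core_top (b : HilbertBasis ℕ ℂ H) {α : ℝ} (hα0 : 0 < α)
    (hα : α ≠ 1 / 2) (A : ℕ → (H →L[ℂ] H)) (hA : ∀ n, IsCompactOperator (A n))
    (hval : ∀ (L : ℕ) (F : ℕ → Finset ℕ) (s : ℕ → ℕ → ℝ), 0 < L → GoodBlocks L F s →
      ‖∑ j ∈ Finset.range L, Cb A α (F j) (s j)‖ = (L : ℝ) ^ α) : False := by
  have hone : ∀ F : Finset ℕ, F.Nonempty → ∀ s : ℕ → ℝ, (∀ n, s n = 1 ∨ s n = -1) →
      ‖Cb A α F s‖ = 1 := by
    intro F hF s hs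
    have := hval 1 (fun _ => F) (fun _ => s) one_pos (goodBlocks_one hF hs)
    simpa using this
  have hop : ∀ F : Finset ℕ, F.Nonempty → ∀ s : ℕ → ℝ, (∀ n, s n = 1 ∨ s n = -1) →
      ‖∑ n ∈ F, (s n : ℂ) • A n‖ ≤ (F.card : ℝ) ^ α := fun F hF s hs =>
    norm_sum_le_of_Cb hF (hone F hF s hs).le
  have hδ : ∀ j : ℕ, 0 < ENNReal.ofReal ((1 / 2 : ℝ) ^ (j + 1)) := fun j =>
    ENNReal.ofReal_pos.2 (by positivity)
  obtain ⟨M, F, s, hM, h1, h2, h3, h4⟩ := exists_hump (gauge_norm b) hA hα hop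
    (fun F hF s hs => ENNReal.ofReal_ne_top)
    (fun j => ENNReal.ofReal ((1 / 2 : ℝ) ^ (j + 1))) hδ
  set C : ℕ → (H →L[ℂ] H) := fun j => Cb A α (F j) (s j) with hC
  have hD : ∀ j, ‖C j - Eb b M C j‖ ≤ (1 / 2 : ℝ) ^ (j + 1) := fun j =>
    (ENNReal.ofReal_le_ofReal_iff (by positivity)).1 (h4 j)
  have hbound : ∀ L : ℕ, 0 < L → (L : ℝ) ^ α ≤ 2 := by
    intro L hL
    rw [← hval L F s hL (goodBlocks_of_hump hM h1 h2 h3 L)]
    have e1 : ∑ j ∈ Finset.range L, C j = (∑ j ∈ Finset.range L, Eb b M C j) +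
        ∑ j ∈ Finset.range L, (C j - Eb b M C j) := by
      rw [← Finset.sum_add_distrib]
      refine Finset.sum_congr rfl fun j _ => ?_
      abel
    have e2 : ‖∑ j ∈ Finset.range L, (C j - Eb b M C j)‖ ≤ 1 :=
      (norm_sum_le _ _).trans ((Finset.sum_le_sum fun j _ => hD j).trans (sum_half_pow_le L))
    have e3 : ‖∑ j ∈ Finset.range L, Eb b M C j‖ ≤ 1 :=
      norm_sum_Eb_le hM C (fun j => (hone _ (h1 j) _ (h3 j)).le) L
    calc ‖∑ j ∈ Finset.range L, C j‖ ≤ ‖∑ j ∈ Finset.range L, Eb b M C j‖ +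
          ‖∑ j ∈ Finset.range L, (C j - Eb b M C j)‖ := by rw [e1]; exact norm_add_le _ _
      _ ≤ 2 := by linarith
  have ht : Tendsto (fun L : ℕ => (L : ℝ) ^ α) atTop atTop :=
    (tendsto_rpow_atTop hα0).comp tendsto_natCast_atTop_atTop
  obtain ⟨L, hL, hL1⟩ := ((ht.eventually (eventually_gt_atTop (2 : ℝ))).and
    (eventually_ge_atTop 1)).exists
  exact absurd (hbound L hL1) (not_le.2 hL)

end Pool.Agent.T2H72.Sch
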