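import Pool.Agent.Helper526.Sch.Units

/-!
# Schatten classes through singular values
-/

set_option autoImplicit false
set_option linter.unusedSectionVars false
open scoped InnerProductSpace ENNReal NNReal Topology
open Filter
open Pool.Agent.Helper526.Sch

namespace Pool.Agent.T2H72.Sch

universe u v

variable {H : Type u} [NormedAddCommGroup H] [InnerProductSpace ℂ H] [CompleteSpace H]

/-- The multiplicity of `l` as a singular value of `T`: the dimension of the eigenspace of
`|T| = (T* T)^{1/2}` for the eigenvalue `l`. -/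
noncomputable def svMult (T : H →L[ℂ] H) (l : ℝ) : ℕ :=
  Module.finrank ℂ
    (Module.End.eigenspace ((CFC.abs T : H →L[ℂ] H) : Module.End ℂ H) ((l : ℝ) : ℂ))

/-- The sum `∑_j s_j(T)^p` over the nonzero singular values, each repeated according to its
multiplicity, with value in `[0, ∞]`. -/
noncomputable def svPowSum (p : ℝ) (T : H →L[ℂ] H) : ℝ≥0∞ :=
  ∑' l : {l : ℝ // 0 < l}, (svMult T (l : ℝ) : ℝ≥0∞) * ENNReal.ofReal ((l : ℝ) ^ p)

/-- The Schatten (quasi-)norm: `‖T‖_p = (∑_j s_j(T)^p)^{1/p}` for `p < ∞`, and the operator norm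
for `p = ∞`. It takes values in `[0, ∞]`. -/
noncomputable def schattenNorm (p : ℝ≥0∞) (T : H →L[ℂ] H) : ℝ≥0∞ :=
  open scoped Classical in
  if p = ∞ then ENNReal.ofReal ‖T‖ else (svPowSum p.toReal T) ^ (1 / p.toReal)

/-! ### Link with the trace of `|T|^p` -/

lemma eigenspace_abs (T : H →L[ℂ] H) {l : ℝ} (hl : 0 ≤ l) :
    Module.End.eigenspace ((CFC.abs T : H →L[ℂ] H) : Module.End ℂ H) ((l : ℝ) : ℂ) =
      Module.End.eigenspace ((star T * T : H →L[ℂ] H) : Module.End ℂ H) ((l ^ 2 : ℝ) : ℂ) := by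
  ext x
  rw [Module.End.mem_eigenspace_iff, Module.End.mem_eigenspace_iff]
  constructor
  · intro h
    have h1 : CFC.abs T x = ((l : ℝ) : ℂ) • x := h
    have h2 : (star T * T) x = CFC.abs T (CFC.abs T x) := by
      rw [← CFC.abs_mul_abs T]; rfl
    have h3 : (star T * T) x = ((l ^ 2 : ℝ) : ℂ) • x := by
      rw [h2, h1, map_smul, h1, smul_smul]
      push_cast
      ring_nf
    exact h3
  · intro h
    have h1 : (star T * T) x = ((l ^ 2 : ℝ) : ℂ) • x := h
    have h2 := rpow_apply_eigen (star_mul_nonneg T) (q := 1 / 2) (by norm_num) h1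
    have h3 : (CFC.abs T : H →L[ℂ] H) = (star T * T) ^ (1 / 2 : ℝ) := by
      rw [CFC.abs, CFC.sqrt_eq_rpow]
    have h4 : (l ^ 2) ^ (1 / 2 : ℝ) = l := by
      rw [← Real.sqrt_eq_rpow, Real.sqrt_sq hl]
    rw [h4] at h2
    have h5 : CFC.abs T x = ((l : ℝ) : ℂ) • x := by rw [h3]; exact h2
    exact h5

lemma svMult_eq {κ : Type v} {T : H →L[ℂ] H} (hT : IsCompactOperator T) (v : HilbertBasis κ ℂ H)
    {lam : κ → ℝ} (hv : ∀ k, (star T * T) (v k) = ((lam k : ℝ) : ℂ) • v k) {l : ℝ} (hl : 0 < l) :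
    Finite {k // lam k = l ^ 2} ∧ svMult T l = Nat.card {k // lam k = l ^ 2} := by
  have hfd : FiniteDimensional ℂ
      (Module.End.eigenspace ((star T * T : H →L[ℂ] H) : Module.End ℂ H) ((l ^ 2 : ℝ) : ℂ)) :=
    ContinuousLinearMap.finite_dimensional_eigenspace (Cpt.of_compact hT).1 _ (by
      have : (l ^ 2 : ℝ) ≠ 0 := by positivity
      exact_mod_cast this)
  have hli : LinearIndependent ℂ (fun k : {k // lam k = l ^ 2} => v k) :=
    v.orthonormal.linearIndependent.comp _ Subtype.val_injective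
  have hmem : ∀ k : {k // lam k = l ^ 2}, v k ∈
      Module.End.eigenspace ((star T * T : H →L[ℂ] H) : Module.End ℂ H) ((l ^ 2 : ℝ) : ℂ) := by
    intro k
    rw [Module.End.mem_eigenspace_iff]
    have := hv k
    rw [k.2] at this
    exact this
  have hfin : Finite {k // lam k = l ^ 2} := by
    have hli' : LinearIndependent ℂ (fun k : {k // lam k = l ^ 2} =>
        (⟨v k, hmem k⟩ : Module.End.eigenspace ((star T * T : H →L[ℂ] H) : Module.End ℂ H)
          ((l ^ 2 : ℝ) : ℂ))) := by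
      apply LinearIndependent.of_comp (Submodule.subtype _)
      exact hli
    exact hli'.finite_of_isNoetherian
  refine ⟨hfin, ?_⟩
  have : Fintype {k // lam k = l ^ 2} := Fintype.ofFinite _
  have heq : Module.End.eigenspace ((star T * T : H →L[ℂ] H) : Module.End ℂ H)
      ((l ^ 2 : ℝ) : ℂ) =
      Submodule.span ℂ (Set.range fun k : {k // lam k = l ^ 2} => v k) := by
    apply le_antisymm
    · intro x hx
      rw [Module.End.mem_eigenspace_iff] at hx
      have hx' : (star T * T) x = ((l ^ 2 : ℝ) : ℂ) • x := hx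
      have hz : ∀ k, lam k ≠ l ^ 2 → ⟪v k, x⟫_ℂ = 0 := by
        intro k hk
        have h1 := inner_apply_eigen (isSelfAdjoint_star_mul T) (hv k) x
        rw [hx', inner_smul_right] at h1
        have h2 : (((l ^ 2 : ℝ) : ℂ) - ((lam k : ℝ) : ℂ)) * ⟪v k, x⟫_ℂ = 0 := by
          rw [sub_mul, h1, sub_self]
        rcases mul_eq_zero.1 h2 with h3 | h3
        · exact absurd (by exact_mod_cast (sub_eq_zero.1 h3).symm) hk
        · exact h3
      have hs := v.hasSum_repr x
      have hs2 : HasSum (fun k => v.repr x k • v k)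
          (∑ k : {k // lam k = l ^ 2}, v.repr x k • v k) := by
        have hinj : Function.Injective (Subtype.val : {k // lam k = l ^ 2} → κ) :=
          Subtype.val_injective
        have h1 : HasSum ((fun k => v.repr x k • v k) ∘
            (Subtype.val : {k // lam k = l ^ 2} → κ))
            (∑ k : {k // lam k = l ^ 2}, v.repr x k • v k) := hasSum_fintype _
        refine (hinj.hasSum_iff ?_).1 h1
        intro k hk
        have hk' : lam k ≠ l ^ 2 := fun h => hk ⟨⟨k, h⟩, rfl⟩
        rw [v.repr_apply_apply, hz k hk', zero_smul]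
      rw [hs.unique hs2]
      exact Submodule.sum_mem _ fun k _ => Submodule.smul_mem _ _ (Submodule.subset_span ⟨k, rfl⟩)
    · rw [Submodule.span_le]
      rintro _ ⟨k, rfl⟩
      exact hmem k
  rw [svMult, eigenspace_abs T hl.le, heq, Nat.card_eq_fintype_card, ← finrank_span_eq_card hli]

/-- The sum of the `p`-th powers of the singular values is `tr |T|^p`. -/
lemma svPowSum_eq {ι : Type v} (b : HilbertBasis ι ℂ H) {T : H →L[ℂ] H} (hT : IsCompactOperator T)
    {p : ℝ} (hp : 0 < p) : svPowSum p T = trAbsPow b p T := by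
  classical
  obtain ⟨κ, v, lam, hv⟩ := exists_eigenbasis' (Cpt.of_compact hT).1
  rw [trAbsPow_eq b v hv hp]
  have hlam : ∀ k, 0 ≤ lam k := fun k => by rw [eigen_nonneg v hv k]; positivity
  set f : κ → ℝ≥0∞ := fun k => ENNReal.ofReal (lam k ^ (p / 2)) with hf
  have h1 : ∑' k, f k = ∑' k : {k // 0 < lam k}, f k := by
    symm
    apply tsum_subtype_eq_of_support_subset (s := {k | 0 < lam k})
    intro k hk
    by_contra hcon
    have h0 : lam k = 0 := le_antisymm (not_lt.1 hcon) (hlam k)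
    apply hk
    simp only [hf, h0]
    rw [Real.zero_rpow (by positivity), ENNReal.ofReal_zero]
  rw [h1]
  let g : {k // 0 < lam k} → {l : ℝ // 0 < l} := fun k => ⟨Real.sqrt (lam k), Real.sqrt_pos.2 k.2⟩
  rw [← ENNReal.tsum_fiberwise (fun k : {k // 0 < lam k} => f k) g]
  unfold svPowSum
  congr 1
  funext l
  obtain ⟨hfin, hcard⟩ := svMult_eq hT v hv l.2
  have hterm : ∀ k : g ⁻¹' {l}, f (k : {k // 0 < lam k}) = ENNReal.ofReal ((l : ℝ) ^ p) := by
    intro k
    have h2 : g k = l := k.2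
    have h3 : Real.sqrt (lam k) = (l : ℝ) := congrArg Subtype.val h2
    have h4 : lam k = (l : ℝ) ^ 2 := by rw [← h3, Real.sq_sqrt (hlam _)]
    simp only [hf]
    rw [h4, rpow_two_mul_half l.2.le]
  simp_rw [hterm]
  let e : (g ⁻¹' {l}) ≃ {k // lam k = (l : ℝ) ^ 2} :=
    { toFun := fun k => ⟨k.1.1, by
        have h2 : g k = l := k.2
        have h3 : Real.sqrt (lam k) = (l : ℝ) := congrArg Subtype.val h2
        rw [← h3, Real.sq_sqrt (hlam _)]⟩
      invFun := fun k => ⟨⟨k.1, by rw [k.2]; have := l.2; positivity⟩, by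
        apply Subtype.ext
        have : Real.sqrt (lam k) = (l : ℝ) := by rw [k.2, Real.sqrt_sq l.2.le]
        exact this⟩
      left_inv := fun k => rfl
      right_inv := fun k => rfl }
  rw [e.tsum_eq (fun _ => ENNReal.ofReal ((l : ℝ) ^ p))]
  have : Fintype {k // lam k = (l : ℝ) ^ 2} := Fintype.ofFinite _
  rw [tsum_fintype, Finset.sum_const, nsmul_eq_mul, hcard, Nat.card_eq_fintype_card]
  rfl

lemma schattenNorm_top (T : H →L[ℂ] H) : schattenNorm ∞ T = ENNReal.ofReal ‖T‖ := by
  unfold schattenNorm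
  rw [if_pos rfl]

lemma schattenNorm_of_ne_top {p : ℝ≥0∞} (hp : p ≠ ∞) (T : H →L[ℂ] H) :
    schattenNorm p T = (svPowSum p.toReal T) ^ (1 / p.toReal) := by
  unfold schattenNorm
  rw [if_neg hp]

lemma schattenNorm_eq {ι : Type v} (b : HilbertBasis ι ℂ H) {T : H →L[ℂ] H}
    (hT : IsCompactOperator T) {p : ℝ≥0∞} (hp0 : p ≠ 0) (hp : p ≠ ∞) :
    schattenNorm p T = (trAbsPow b p.toReal T) ^ (1 / p.toReal) := by
  rw [schattenNorm_of_ne_top hp, svPowSum_eq b hT (ENNReal.toReal_pos hp0 hp)]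

lemma schattenNorm_lt_top_iff {ι : Type v} (b : HilbertBasis ι ℂ H) {T : H →L[ℂ] H}
    (hT : IsCompactOperator T) {p : ℝ≥0∞} (hp0 : p ≠ 0) (hp : p ≠ ∞) :
    schattenNorm p T < ∞ ↔ trAbsPow b p.toReal T < ∞ := by
  rw [schattenNorm_eq b hT hp0 hp, ENNReal.rpow_lt_top_iff_of_pos]
  have := ENNReal.toReal_pos hp0 hp
  positivity

/-- The Schatten class `S_p(H)`: the compact operators `T` with `‖T‖_p < ∞` (for `p = ∞` this is
the space of all compact operators). -/
noncomputable def Schatten (H : Type u) [NormedAddCommGroup H] [InnerProductSpace ℂ H]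
    [CompleteSpace H] (p : ℝ≥0∞) : Submodule ℂ (H →L[ℂ] H) where
  carrier := {T | IsCompactOperator T ∧ schattenNorm p T < ∞}
  add_mem' := by
    rintro S T ⟨hS, hS'⟩ ⟨hT, hT'⟩
    refine ⟨hS.add hT, ?_⟩
    by_cases hp : p = ∞
    · subst hp
      rw [schattenNorm_top]
      exact ENNReal.ofReal_lt_top
    by_cases hp0 : p = 0
    · subst hp0
      rw [schattenNorm_of_ne_top hp]
      simp
    obtain ⟨w, b, -⟩ := exists_hilbertBasis ℂ H
    rw [schattenNorm_lt_top_iff b hS hp0 hp] at hS'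
    rw [schattenNorm_lt_top_iff b hT hp0 hp] at hT'
    rw [schattenNorm_lt_top_iff b (hS.add hT) hp0 hp]
    exact trAbsPow_add_lt_top b hS hT (ENNReal.toReal_pos hp0 hp) hS' hT'
  zero_mem' := by
    refine ⟨isCompactOperator_zero, ?_⟩
    by_cases hp : p = ∞
    · subst hp
      rw [schattenNorm_top]
      exact ENNReal.ofReal_lt_top
    by_cases hp0 : p = 0
    · subst hp0
      rw [schattenNorm_of_ne_top hp]
      simp
    obtain ⟨w, b, -⟩ := exists_hilbertBasis ℂ H
    rw [schattenNorm_lt_top_iff b isCompactOperator_zero hp0 hp,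
      trAbsPow_zero b (ENNReal.toReal_pos hp0 hp)]
    exact ENNReal.zero_lt_top
  smul_mem' := by
    rintro c T ⟨hT, hT'⟩
    refine ⟨hT.smul c, ?_⟩
    by_cases hp : p = ∞
    · subst hp
      rw [schattenNorm_top]
      exact ENNReal.ofReal_lt_top
    by_cases hp0 : p = 0
    · subst hp0
      rw [schattenNorm_of_ne_top hp]
      simp
    obtain ⟨w, b, -⟩ := exists_hilbertBasis ℂ H
    rw [schattenNorm_lt_top_iff b hT hp0 hp] at hT'
    rw [schattenNorm_lt_top_iff b (hT.smul c) hp0 hp]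
    exact (schatten_smul_mem b (ENNReal.toReal_pos hp0 hp) c ⟨hT, hT'⟩).2

lemma mem_Schatten {p : ℝ≥0∞} {T : H →L[ℂ] H} :
    T ∈ Schatten H p ↔ IsCompactOperator T ∧ schattenNorm p T < ∞ := Iff.rfl

end Pool.Agent.T2H72.Sch
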