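import Pool.Agent.T2H72.Sch.Core
import Pool.Agent.T2H72.Sch.Defs

set_option autoImplicit false
set_option linter.unusedSectionVars false
open scoped InnerProductSpace ENNReal NNReal Topology
open Filter
open Pool.Agent.Helper526.Sch

namespace Pool.Agent.T2H72.Sch

universe u v

variable {H : Type u} [NormedAddCommGroup H] [InnerProductSpace ℂ H] [CompleteSpace H]

/-! ### Diagonal operators -/

section Diag

variable (b : HilbertBasis ℕ ℂ H)

/-- the `i`-th diagonal coefficient of the `L`-block operator -/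
noncomputable def cf (α : ℝ) (L : ℕ) (F : ℕ → Finset ℕ) (s : ℕ → ℕ → ℝ) (i : ℕ) : ℝ :=
  ∑ j ∈ Finset.range L, if i ∈ F j then ((F j).card : ℝ) ^ (-α) * s j i else 0

/-- the `L`-block diagonal operator -/
noncomputable def DD (α : ℝ) (L : ℕ) (F : ℕ → Finset ℕ) (s : ℕ → ℕ → ℝ) : H →L[ℂ] H :=
  ∑ j ∈ Finset.range L, Cb (fun n => matUnit b n n) α (F j) (s j)

lemma DD_compact (α : ℝ) (L : ℕ) (F : ℕ → Finset ℕ) (s : ℕ → ℕ → ℝ) :
    IsCompactOperator (DD b α L F s) := by
  have := compact_sum (Finset.range L) (fun j => Cb (fun n => matUnit b n n) α (F j) (s j))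
    fun j _ => Cb_compact (fun n => matUnit_compact b n n) α (F j) (s j)
  exact this

lemma DD_apply_basis (α : ℝ) (L : ℕ) (F : ℕ → Finset ℕ) (s : ℕ → ℕ → ℝ) (i : ℕ) :
    DD b α L F s (b i) = ((cf α L F s i : ℝ) : ℂ) • b i := by
  have h1 : ∀ j, Cb (fun n => matUnit b n n) α (F j) (s j) (b i) =
      (((if i ∈ F j then ((F j).card : ℝ) ^ (-α) * s j i else 0 : ℝ)) : ℂ) • b i := by
    intro j
    have e0 : Cb (fun n => matUnit b n n) α (F j) (s j) (b i) =
        ((((F j).card : ℝ) ^ (-α) : ℝ) : ℂ) • (∑ n ∈ F j, (s j n : ℂ) • matUnit b n n) (b i) := rfl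
    have e1 : (∑ n ∈ F j, (s j n : ℂ) • matUnit b n n) (b i) =
        ∑ n ∈ F j, (s j n : ℂ) • (⟪b n, b i⟫_ℂ • b n) := by
      rw [sum_apply]
      refine Finset.sum_congr rfl fun n _ => ?_
      have : ((s j n : ℂ) • matUnit b n n) (b i) = (s j n : ℂ) • (matUnit b n n (b i)) := rfl
      rw [this, matUnit_apply]
    rw [e0, e1]
    by_cases hi : i ∈ F j
    · rw [if_pos hi, Finset.sum_eq_single i]
      · rw [inner_basis, if_pos rfl, one_smul, smul_smul]
        push_cast
        rfl
      · intro n _ hn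
        rw [inner_basis, if_neg hn, zero_smul, smul_zero]
      · intro hni
        exact absurd hi hni
    · rw [if_neg hi]
      have : ∑ n ∈ F j, (s j n : ℂ) • (⟪b n, b i⟫_ℂ • b n) = 0 := by
        refine Finset.sum_eq_zero fun n hn => ?_
        have hne : n ≠ i := by rintro rfl; exact hi hn
        rw [inner_basis, if_neg hne, zero_smul, smul_zero]
      rw [this]
      simp
  unfold DD cf
  rw [sum_apply]
  simp only [h1]
  rw [← Finset.sum_smul]
  push_cast
  rfl

lemma DD_star (α : ℝ) (L : ℕ) (F : ℕ → Finset ℕ) (s : ℕ → ℕ → ℝ) :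
    star (DD b α L F s) = DD b α L F s := by
  unfold DD Cb
  rw [star_sum]
  refine Finset.sum_congr rfl fun j _ => ?_
  rw [star_smul, star_sum]
  congr 1
  · exact Complex.conj_ofReal _
  · refine Finset.sum_congr rfl fun n _ => ?_
    rw [star_smul, matUnit_star]
    congr 1
    exact Complex.conj_ofReal _

lemma DD_star_mul_apply (α : ℝ) (L : ℕ) (F : ℕ → Finset ℕ) (s : ℕ → ℕ → ℝ) (i : ℕ) :
    (star (DD b α L F s) * DD b α L F s) (b i) = (((cf α L F s i) ^ 2 : ℝ) : ℂ) • b i := by
  have : (star (DD b α L F s) * DD b α L F s) (b i) = star (DD b α L F s) (DD b α L F s (b i)) := rfl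
  rw [this, DD_star, DD_apply_basis, map_smul, DD_apply_basis, smul_smul]
  push_cast
  ring_nf

lemma cf_mem {α : ℝ} {L : ℕ} {F : ℕ → Finset ℕ} {s : ℕ → ℕ → ℝ} (h : GoodBlocks L F s) {i j : ℕ}
    (hj : j < L) (hi : i ∈ F j) : |cf α L F s i| = ((F j).card : ℝ) ^ (-α) := by
  have h1 : cf α L F s i = ((F j).card : ℝ) ^ (-α) * s j i := by
    unfold cf
    rw [Finset.sum_eq_single j]
    · rw [if_pos hi]
    · intro k hk hkj
      have hk' := Finset.mem_range.1 hk
      have hd := h.2.1 k hk' j hj hkj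
      rw [if_neg]
      intro hik
      exact (Finset.disjoint_left.1 hd hik) hi
    · intro hn
      exact absurd (Finset.mem_range.2 hj) hn
  rw [h1, abs_mul, abs_of_nonneg (Real.rpow_nonneg (by positivity) _)]
  rcases h.2.2 j i with h2 | h2 <;> simp [h2]

lemma cf_not_mem {α : ℝ} {L : ℕ} {F : ℕ → Finset ℕ} {s : ℕ → ℕ → ℝ} {i : ℕ}
    (hi : ∀ j < L, i ∉ F j) : cf α L F s i = 0 := by
  unfold cf
  exact Finset.sum_eq_zero fun j hj => by rw [if_neg (hi j (Finset.mem_range.1 hj))]

/-- `tr |D|^q = L` for the block diagonal operator with `α = 1/q`. -/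
lemma trAbsPow_DD {q : ℝ} (hq : 0 < q) {L : ℕ} {F : ℕ → Finset ℕ} {s : ℕ → ℕ → ℝ}
    (h : GoodBlocks L F s) : trAbsPow b q (DD b (1 / q) L F s) = L := by
  rw [trAbsPow_eq b b (DD_star_mul_apply b (1 / q) L F s) hq]
  have hterm : ∀ i, ENNReal.ofReal ((cf (1 / q) L F s i ^ 2) ^ (q / 2)) =
      ∑ j ∈ Finset.range L, if i ∈ F j then ENNReal.ofReal (((F j).card : ℝ)⁻¹) else 0 := by
    intro i
    rw [← sq_abs, rpow_two_mul_half (abs_nonneg _)]
    by_cases hi : ∃ j < L, i ∈ F j
    · obtain ⟨j, hj, hij⟩ := hi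
      rw [cf_mem h hj hij, Finset.sum_eq_single j]
      · rw [if_pos hij, ← Real.rpow_mul (by positivity)]
        congr 1
        have : -(1 / q) * q = -1 := by field_simp
        rw [this, Real.rpow_neg_one]
      · intro k hk hkj
        have hk' := Finset.mem_range.1 hk
        have hd := h.2.1 k hk' j hj hkj
        rw [if_neg]
        intro hik
        exact (Finset.disjoint_left.1 hd hik) hij
      · intro hn
        exact absurd (Finset.mem_range.2 hj) hn
    · push Not at hi
      rw [cf_not_mem hi, abs_zero, Real.zero_rpow hq.ne', ENNReal.ofReal_zero]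
      symm
      exact Finset.sum_eq_zero fun j hj => by rw [if_neg (hi j (Finset.mem_range.1 hj))]
  simp_rw [hterm]
  rw [Summable.tsum_finsetSum (fun _ _ => ENNReal.summable)]
  have hj : ∀ j ∈ Finset.range L,
      ∑' i, (if i ∈ F j then ENNReal.ofReal (((F j).card : ℝ)⁻¹) else 0) = 1 := by
    intro j hj
    rw [tsum_eq_sum (s := F j) (fun i hi => if_neg hi)]
    rw [Finset.sum_congr rfl (fun i hi => if_pos hi), Finset.sum_const, nsmul_eq_mul]
    have hc : (0 : ℝ) < (F j).card := by
      exact_mod_cast (h.1 j (Finset.mem_range.1 hj)).card_pos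
    rw [← ENNReal.ofReal_natCast, ← ENNReal.ofReal_mul hc.le, mul_inv_cancel₀ hc.ne',
      ENNReal.ofReal_one]
  rw [Finset.sum_congr rfl hj]
  simp

lemma norm_DD {L : ℕ} (hL : 0 < L) {F : ℕ → Finset ℕ} {s : ℕ → ℕ → ℝ}
    (h : GoodBlocks L F s) : ‖DD b 0 L F s‖ = 1 := by
  have habs : ∀ i, |cf 0 L F s i| ≤ 1 := by
    intro i
    by_cases hi : ∃ j < L, i ∈ F j
    · obtain ⟨j, hj, hij⟩ := hi
      rw [cf_mem h hj hij]
      simp
    · push Not at hi
      rw [cf_not_mem hi]
      simp
  apply le_antisymm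
  · refine ContinuousLinearMap.opNorm_le_bound _ zero_le_one fun x => ?_
    rw [one_mul]
    refine norm_le_of_coef b fun i => ?_
    have h1 : ⟪b i, DD b 0 L F s x⟫_ℂ = ((cf 0 L F s i : ℝ) : ℂ) * ⟪b i, x⟫_ℂ := by
      have h2 : ⟪b i, DD b 0 L F s x⟫_ℂ = ⟪DD b 0 L F s (b i), x⟫_ℂ := by
        rw [← inner_star_left, DD_star]
      rw [h2, DD_apply_basis, inner_smul_left, Complex.conj_ofReal]
    rw [h1, norm_mul, Complex.norm_real, Real.norm_eq_abs]
    calc |cf 0 L F s i| * ‖⟪b i, x⟫_ℂ‖ ≤ 1 * ‖⟪b i, x⟫_ℂ‖ := by gcongr; exact habs i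
      _ = ‖⟪b i, x⟫_ℂ‖ := one_mul _
  · obtain ⟨i, hi⟩ := h.1 0 hL
    have h1 := (DD b 0 L F s).le_opNorm (b i)
    rw [DD_apply_basis, norm_smul, b.orthonormal.1 i, Complex.norm_real, Real.norm_eq_abs,
      cf_mem h hL hi] at h1
    simpa using h1

/-- the Schatten norm of a normalised block diagonal operator -/
lemma schattenNorm_DD {q : ℝ≥0∞} (hq : q ≠ 0) {L : ℕ} (hL : 0 < L) {F : ℕ → Finset ℕ}
    {s : ℕ → ℕ → ℝ} (h : GoodBlocks L F s) :
    schattenNorm q (DD b (1 / q.toReal) L F s) = ENNReal.ofReal ((L : ℝ) ^ (1 / q.toReal)) := by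
  by_cases hq' : q = ∞
  · subst hq'
    rw [schattenNorm_top, ENNReal.toReal_top, div_zero, norm_DD b hL h, Real.rpow_zero]
  · have hpos := ENNReal.toReal_pos hq hq'
    rw [schattenNorm_eq b (DD_compact b _ L F s) hq hq', trAbsPow_DD b hpos h,
      ← ENNReal.ofReal_rpow_of_nonneg (by positivity) (by positivity), ENNReal.ofReal_natCast]

end Diag

/-! ### Existence of a basis indexed by `ℕ` -/

/-- a separable infinite dimensional Hilbert space has a basis indexed by `ℕ` -/
theorem exists_basis [TopologicalSpace.SeparableSpace H] (hH : ¬ FiniteDimensional ℂ H) :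
    Nonempty (HilbertBasis ℕ ℂ H) := by
  obtain ⟨w, b, hb⟩ := exists_hilbertBasis ℂ H
  have hinf : Infinite w := by
    by_contra hfin
    rw [not_infinite_iff_finite] at hfin
    have := Fintype.ofFinite w
    exact hH b.toOrthonormalBasis.toBasis.finiteDimensional_of_finite
  have hcount : Countable w := by
    have hdist : ∀ i j : w, i ≠ j → 1 ≤ dist (b i) (b j) := by
      intro i j hij
      have h1 := b.orthonormal
      have h2 : ‖b i - b j‖ ^ 2 = 2 := by
        rw [@norm_sub_sq ℂ, h1.1 i, h1.1 j, h1.2 hij]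
        norm_num
      rw [dist_eq_norm]
      by_contra hc
      push Not at hc
      have h3 := norm_nonneg (b i - b j)
      nlinarith
    have hdisj : Pairwise (Function.onFun Disjoint fun i : w => Metric.ball (b i) (1 / 2)) := by
      intro i j hij
      refine Metric.ball_disjoint_ball ?_
      have := hdist i j hij
      linarith
    have h4 := Set.PairwiseDisjoint.countable_of_isOpen (s := fun i : w => Metric.ball (b i) (1 / 2))
      (a := Set.univ) (fun i _ j _ hij => hdisj hij) (fun i _ => Metric.isOpen_ball)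
      (fun i _ => Metric.nonempty_ball.2 (by norm_num))
    exact Set.countable_univ_iff.1 h4
  obtain ⟨e⟩ := nonempty_equiv_of_countable (α := ℕ) (β := w)
  have h1 : Orthonormal ℂ (fun j => b (e j)) := b.orthonormal.comp e e.injective
  have h2 : ⊤ ≤ (Submodule.span ℂ (Set.range fun j => b (e j))).topologicalClosure := by
    have h3 : (Set.range fun j => b (e j)) = Set.range b := e.surjective.range_comp b
    rw [h3, b.dense_span]
  exact ⟨HilbertBasis.mk h1 h2⟩

/-! ### The negative part -/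

theorem no_embedding (b : HilbertBasis ℕ ℂ H) {q p : ℝ≥0∞} (hq0 : q ≠ 0) (hp0 : p ≠ 0)
    (hp : p < 2 ∨ p = ∞) (hne : q ≠ p) (hq2 : q ≠ 2)
    (J : Schatten H q →ₗ[ℂ] Schatten H p)
    (hJ : ∀ T : Schatten H q, schattenNorm p (J T : H →L[ℂ] H) = schattenNorm q (T : H →L[ℂ] H)) :
    False := by
  set α : ℝ := 1 / q.toReal with hα
  have hE : ∀ n, matUnit b n n ∈ Schatten H q := by
    intro n
    refine ⟨matUnit_compact b n n, ?_⟩
    by_cases hq' : q = ∞
    · subst hq'
      rw [schattenNorm_top]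
      exact ENNReal.ofReal_lt_top
    · rw [schattenNorm_lt_top_iff b (matUnit_compact b n n) hq0 hq',
        trAbsPow_matUnit b n n (ENNReal.toReal_pos hq0 hq')]
      exact ENNReal.one_lt_top
  let E : ℕ → Schatten H q := fun n => ⟨matUnit b n n, hE n⟩
  let A : ℕ → (H →L[ℂ] H) := fun n => (J (E n) : H →L[ℂ] H)
  have hA : ∀ n, IsCompactOperator (A n) := fun n => (J (E n)).2.1
  have hJD : ∀ (L : ℕ) (F : ℕ → Finset ℕ) (s : ℕ → ℕ → ℝ), 0 < L → GoodBlocks L F s →
      schattenNorm p (∑ j ∈ Finset.range L, Cb A α (F j) (s j)) =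
        ENNReal.ofReal ((L : ℝ) ^ α) := by
    intro L F s hL h
    let T : Schatten H q := ∑ j ∈ Finset.range L,
      ((((F j).card : ℝ) ^ (-α) : ℝ) : ℂ) • ∑ n ∈ F j, (s j n : ℂ) • E n
    have hT : (T : H →L[ℂ] H) = DD b α L F s := by
      simp only [T, DD, Cb, Submodule.coe_sum, Submodule.coe_smul, E]
    have hJT : (J T : H →L[ℂ] H) = ∑ j ∈ Finset.range L, Cb A α (F j) (s j) := by
      simp only [T, map_sum, map_smul, Submodule.coe_sum, Submodule.coe_smul, Cb, A]
    rw [← hJT, hJ T, hT, hα, schattenNorm_DD b hq0 hL h]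
  have hα2 : α ≠ 1 / 2 := by
    intro h
    apply hq2
    have h1 : q.toReal = 2 := by
      rw [hα] at h
      have h2 : q.toReal ≠ 0 := by
        intro h0
        rw [h0] at h
        norm_num at h
      field_simp at h
      linarith
    have hq' : q ≠ ∞ := by
      intro h0
      rw [h0] at h1
      simp at h1
    rw [← ENNReal.ofReal_toReal hq', h1]
    norm_num
  have hcs : ∀ (L : ℕ) (F : ℕ → Finset ℕ) (s : ℕ → ℕ → ℝ),
      IsCompactOperator (∑ j ∈ Finset.range L, Cb A α (F j) (s j) : H →L[ℂ] H) := fun L F s =>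
    compact_sum _ _ fun j _ => Cb_compact hA α (F j) (s j)
  rcases hp with hp | hp
  · have hp' : p ≠ ∞ := ne_top_of_lt hp
    have hpos := ENNReal.toReal_pos hp0 hp'
    have hp2 : p.toReal ≤ 2 := by
      have := (ENNReal.toReal_le_toReal hp' (by norm_num)).2 hp.le
      simpa using this
    refine core_lt_two b hpos hp2 hα2 ?_ A hA ?_ (α := α)
    · intro h
      apply hne
      have h2 : q.toReal ≠ 0 := by
        intro h0
        rw [hα, h0] at h
        norm_num at h
      have hq' : q ≠ ∞ := by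
        intro h0
        rw [h0] at h2
        simp at h2
      rw [hα] at h
      field_simp at h
      exact ((ENNReal.toReal_eq_toReal_iff' hq' hp').1 h.symm)
    · intro L F s hL h
      have h1 := hJD L F s hL h
      rw [schattenNorm_eq b (hcs L F s) hp0 hp'] at h1
      have h2 := congrArg (fun t => t ^ p.toReal) h1
      rw [← ENNReal.rpow_mul, one_div, inv_mul_cancel₀ hpos.ne', ENNReal.rpow_one,
        ENNReal.ofReal_rpow_of_nonneg (by positivity) hpos.le, ← Real.rpow_mul (by positivity)] at h2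
      rw [h2, mul_comm α]
  · subst hp
    have hq' : q ≠ ∞ := hne
    refine core_top b (α := α) ?_ hα2 A hA ?_
    · have := ENNReal.toReal_pos hq0 hq'
      positivity
    · intro L F s hL h
      have h1 := hJD L F s hL h
      rw [schattenNorm_top] at h1
      exact (ENNReal.ofReal_eq_ofReal_iff (norm_nonneg _) (by positivity)).1 h1

end Pool.Agent.T2H72.Sch
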