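import Pool.Agent.T2H72.Sch.Step

set_option autoImplicit false
set_option linter.unusedSectionVars false
open scoped InnerProductSpace ENNReal NNReal Topology
open Filter
open Pool.Agent.Helper526.Sch

namespace Pool.Agent.T2H72.Sch

universe u v

variable {H : Type u} [NormedAddCommGroup H] [InnerProductSpace ℂ H] [CompleteSpace H]

/-! ### The operator norm -/

lemma pr_compact (b : HilbertBasis ℕ ℂ H) (m : ℕ) : IsCompactOperator (pr b m) := by
  have := compact_sum (Finset.range m) (fun i => matUnit b i i) (fun i _ => matUnit_compact b i i)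
  exact this

lemma norm_apply_one_sub_le (b : HilbertBasis ℕ ℂ H) (m : ℕ) (x : H) :
    ‖(1 - pr b m) x‖ ≤ ‖x‖ := by
  have h1 := (1 - pr b m).le_opNorm x
  have h2 := norm_one_sub_pr_le b m
  calc ‖(1 - pr b m) x‖ ≤ ‖1 - pr b m‖ * ‖x‖ := h1
    _ ≤ 1 * ‖x‖ := by gcongr
    _ = ‖x‖ := one_mul _

lemma tendsto_norm_left (b : HilbertBasis ℕ ℂ H) {X : H →L[ℂ] H} (hX : IsCompactOperator X) :
    Tendsto (fun m => ‖(1 - pr b m) * X‖) atTop (𝓝 0) := by
  rw [Metric.tendsto_atTop]
  intro ε hε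
  have hK : IsCompact (closure (X '' Metric.closedBall 0 1)) :=
    IsCompactOperator.isCompact_closure_image_closedBall (f := (X : H →ₗ[ℂ] H)) hX 1
  obtain ⟨t, hts, htf, hcov⟩ := hK.totallyBounded.exists_subset (Metric.dist_mem_uniformity
    (show (0 : ℝ) < ε / 3 by positivity))
  have hev : ∀ᶠ m in atTop, ∀ y ∈ t, ‖(1 - pr b m) y‖ < ε / 3 := by
    rw [eventually_all_finite htf]
    intro y _
    have := (tendsto_pr b y).norm
    rw [norm_zero] at this
    exact this.eventually (eventually_lt_nhds (by positivity))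
  obtain ⟨N, hN⟩ := eventually_atTop.1 hev
  refine ⟨N, fun m hm => ?_⟩
  rw [Real.dist_eq, sub_zero, abs_of_nonneg (norm_nonneg _)]
  have hb : ‖(1 - pr b m) * X‖ ≤ 2 * (ε / 3) := by
    refine ContinuousLinearMap.opNorm_le_of_unit_norm (𝕜 := ℂ) (by positivity) fun x hx => ?_
    have hmem : X x ∈ closure (X '' Metric.closedBall 0 1) := by
      apply subset_closure
      exact ⟨x, by simp [hx], rfl⟩
    have h2 := hcov hmem
    simp only [Set.mem_iUnion, Set.mem_ofPred_eq] at h2
    obtain ⟨y, hy, hxy⟩ := h2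
    have h3 : ((1 - pr b m) * X) x = (1 - pr b m) (X x - y) + (1 - pr b m) y := by
      rw [← map_add, sub_add_cancel]
      rfl
    rw [h3]
    have h4 := norm_apply_one_sub_le b m (X x - y)
    have h5 := hN m hm y hy
    have h6 : ‖X x - y‖ < ε / 3 := by rwa [← dist_eq_norm]
    calc _ ≤ ‖(1 - pr b m) (X x - y)‖ + ‖(1 - pr b m) y‖ := norm_add_le _ _
      _ ≤ 2 * (ε / 3) := by linarith
  linarith

/-- Schauder's theorem in Hilbert space. -/
lemma compact_star (b : HilbertBasis ℕ ℂ H) {X : H →L[ℂ] H} (hX : IsCompactOperator X) :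
    IsCompactOperator (star X : H →L[ℂ] H) := by
  have h1 := tendsto_norm_left b hX
  have h2 : Tendsto (fun m => star X * pr b m) atTop (𝓝 (star X)) := by
    rw [tendsto_iff_norm_sub_tendsto_zero]
    convert h1 using 1
    funext m
    rw [← norm_neg, ← norm_star]
    congr 1
    rw [star_neg, star_sub, star_mul, star_star, pr_star]
    noncomm_ring
  refine isCompactOperator_of_tendsto h2 (Eventually.of_forall fun m => ?_)
  exact (pr_compact b m).clm_comp (star X)

lemma tendsto_norm_right (b : HilbertBasis ℕ ℂ H) {X : H →L[ℂ] H} (hX : IsCompactOperator X) :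
    Tendsto (fun m => ‖X * (1 - pr b m)‖) atTop (𝓝 0) := by
  convert tendsto_norm_left b (compact_star b hX) using 1
  funext m
  rw [← norm_star, star_mul, star_sub, star_one, pr_star]

lemma Phi_star (b : HilbertBasis ℕ ℂ H) (m : ℕ) (X : H →L[ℂ] H) :
    Phi b m (star X) = Phi b m X := by
  unfold Phi
  rw [star_star]
  exact Finset.sum_congr rfl fun i _ => add_comm _ _

lemma norm_apply_basis_sq_le_Phi (b : HilbertBasis ℕ ℂ H) {m i : ℕ} (hi : i < m)
    (X : H →L[ℂ] H) : ‖X (b i)‖ ^ 2 ≤ Phi b m X := by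
  have h1 := Finset.single_le_sum (f := fun i => ‖X (b i)‖ ^ 2 + ‖(star X) (b i)‖ ^ 2)
    (fun i _ => by positivity) (Finset.mem_range.2 hi)
  have h2 : (0 : ℝ) ≤ ‖(star X) (b i)‖ ^ 2 := by positivity
  have h3 : ‖X (b i)‖ ^ 2 + ‖(star X) (b i)‖ ^ 2 ≤ Phi b m X := h1
  linarith

lemma norm_mul_pr_le (b : HilbertBasis ℕ ℂ H) (m : ℕ) (X : H →L[ℂ] H) :
    ‖X * pr b m‖ ≤ m * Real.sqrt (Phi b m X) := by
  refine ContinuousLinearMap.opNorm_le_bound _ (by positivity) fun x => ?_
  have h1 : (X * pr b m) x = ∑ i ∈ Finset.range m, ⟪b i, x⟫_ℂ • X (b i) := by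
    have : (X * pr b m) x = X (pr b m x) := rfl
    rw [this, pr_apply, map_sum]
    simp only [map_smul]
  rw [h1]
  calc ‖∑ i ∈ Finset.range m, ⟪b i, x⟫_ℂ • X (b i)‖
      ≤ ∑ i ∈ Finset.range m, ‖⟪b i, x⟫_ℂ • X (b i)‖ := norm_sum_le _ _
    _ ≤ ∑ i ∈ Finset.range m, ‖x‖ * Real.sqrt (Phi b m X) := by
        refine Finset.sum_le_sum fun i hi => ?_
        rw [norm_smul]
        have h2 := norm_inner_le_norm (𝕜 := ℂ) (b i) x
        rw [b.orthonormal.1 i, one_mul] at h2
        have h3 : ‖X (b i)‖ ≤ Real.sqrt (Phi b m X) :=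
          Real.le_sqrt_of_sq_le (norm_apply_basis_sq_le_Phi b (Finset.mem_range.1 hi) X)
        gcongr
    _ = m * Real.sqrt (Phi b m X) * ‖x‖ := by
        rw [Finset.sum_const, Finset.card_range, nsmul_eq_mul]
        ring

lemma gauge_norm (b : HilbertBasis ℕ ℂ H) : Gauge b (fun X => ENNReal.ofReal ‖X‖) where
  add_le X Y _ _ := by
    rw [← ENNReal.ofReal_add (norm_nonneg _) (norm_nonneg _)]
    calc ENNReal.ofReal ‖X + Y‖ ≤ ENNReal.ofReal (‖X‖ + ‖Y‖) :=
          ENNReal.ofReal_le_ofReal (norm_add_le _ _)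
      _ = 1 * ENNReal.ofReal (‖X‖ + ‖Y‖) := (one_mul _).symm
      _ ≤ _ := by gcongr; norm_num
  mul_left P X hP _ := by
    apply ENNReal.ofReal_le_ofReal
    calc ‖P * X‖ ≤ ‖P‖ * ‖X‖ := norm_mul_le _ _
      _ ≤ 1 * ‖X‖ := by gcongr
      _ = ‖X‖ := one_mul _
  mul_right P X hP _ := by
    apply ENNReal.ofReal_le_ofReal
    calc ‖X * P‖ ≤ ‖X‖ * ‖P‖ := norm_mul_le _ _
      _ ≤ ‖X‖ * 1 := by gcongr
      _ = ‖X‖ := mul_one _
  tend_left X hX _ := by
    have := ENNReal.tendsto_ofReal (tendsto_norm_left b hX)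
    rwa [ENNReal.ofReal_zero] at this
  tend_right X hX _ := by
    have := ENNReal.tendsto_ofReal (tendsto_norm_right b hX)
    rwa [ENNReal.ofReal_zero] at this
  small m δ hδ := by
    obtain ⟨d, hd0, hd⟩ : ∃ d : ℝ, 0 < d ∧ ENNReal.ofReal d ≤ δ := by
      refine ⟨(min δ 1).toReal, ?_, ?_⟩
      · exact ENNReal.toReal_pos (lt_min hδ one_pos).ne' (ne_top_of_le_ne_top ENNReal.one_ne_top (min_le_right _ _))
      · rw [ENNReal.ofReal_toReal (ne_top_of_le_ne_top ENNReal.one_ne_top (min_le_right _ _))]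
        exact min_le_left _ _
    have hm : (0 : ℝ) < m + 1 := by positivity
    refine ⟨(d / (m + 1)) ^ 2, by positivity, fun X _ hPhi => ?_⟩
    have key : ∀ Y : H →L[ℂ] H, Phi b m Y ≤ (d / (m + 1)) ^ 2 → ‖Y * pr b m‖ ≤ d := by
      intro Y hY
      have h1 := norm_mul_pr_le b m Y
      have h2 : Real.sqrt (Phi b m Y) ≤ d / (m + 1) := by
        rw [show d / (m + 1) = Real.sqrt ((d / (m + 1)) ^ 2) from
          (Real.sqrt_sq (by positivity)).symm]
        exact Real.sqrt_le_sqrt hY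
      calc ‖Y * pr b m‖ ≤ m * Real.sqrt (Phi b m Y) := h1
        _ ≤ (m + 1) * (d / (m + 1)) := by gcongr; linarith
        _ = d := by field_simp
    constructor
    · refine le_trans (ENNReal.ofReal_le_ofReal ?_) hd
      rw [← norm_star, star_mul, pr_star]
      exact key _ (by rw [Phi_star]; exact hPhi)
    · exact le_trans (ENNReal.ofReal_le_ofReal (key _ hPhi)) hd

/-! ### The trace functional `tr |X|^p`, `0 < p ≤ 2` -/

lemma trAbsPow_mul_left_le (b : HilbertBasis ℕ ℂ H) {P X : H →L[ℂ] H} (hP : ‖P‖ ≤ 1)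
    (hX : IsCompactOperator X) {p : ℝ} (hp0 : 0 < p) (hp : p ≤ 2) :
    trAbsPow b p (P * X) ≤ trAbsPow b p X := by
  obtain ⟨κ, v, lam, hv⟩ := exists_eigenbasis' (Cpt.of_compact hX).1
  have hPX : IsCompactOperator (P * X : H →L[ℂ] H) := hX.clm_comp P
  refine (le_sum_norm b v (Cpt.of_compact hPX).1 hp0 hp).trans ?_
  rw [trAbsPow_eq b v hv hp0]
  refine ENNReal.tsum_le_tsum fun k => ENNReal.ofReal_le_ofReal ?_
  rw [eigen_nonneg v hv k, rpow_two_mul_half (norm_nonneg _)]
  refine Real.rpow_le_rpow (norm_nonneg _) ?_ hp0.le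
  calc ‖(P * X) (v k)‖ = ‖P (X (v k))‖ := rfl
    _ ≤ ‖P‖ * ‖X (v k)‖ := P.le_opNorm _
    _ ≤ 1 * ‖X (v k)‖ := by gcongr
    _ = ‖X (v k)‖ := one_mul _

lemma trAbsPow_mul_right_le (b : HilbertBasis ℕ ℂ H) {P X : H →L[ℂ] H} (hP : ‖P‖ ≤ 1)
    (hX : IsCompactOperator X) {p : ℝ} (hp0 : 0 < p) (hp : p ≤ 2) :
    trAbsPow b p (X * P) ≤ trAbsPow b p X := by
  have hXP : IsCompactOperator (X * P : H →L[ℂ] H) := hX.comp_clm P
  rw [← trAbsPow_star b (Cpt.of_compact hXP) hp0, ← trAbsPow_star b (Cpt.of_compact hX) hp0,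
    star_mul]
  exact trAbsPow_mul_left_le b (by rw [norm_star]; exact hP) (compact_star b hX) hp0 hp

lemma trAbsPow_add_le (b : HilbertBasis ℕ ℂ H) {X Y : H →L[ℂ] H}
    (hX : IsCompactOperator X) (hY : IsCompactOperator Y) {p : ℝ} (hp0 : 0 < p) (hp : p ≤ 2) :
    trAbsPow b p (X + Y) ≤ 2 * (trAbsPow b p X + trAbsPow b p Y) :=
  le_trans le_self_add (mccarthy_le b (CptPair.of_compact hX hY) hp0 hp)

lemma summable_of_trAbsPow {κ : Type*} (b : HilbertBasis ℕ ℂ H) {X : H →L[ℂ] H}
    (v : HilbertBasis κ ℂ H) {lam : κ → ℝ}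
    (hv : ∀ k, (star X * X) (v k) = ((lam k : ℝ) : ℂ) • v k) {p : ℝ} (hp0 : 0 < p)
    (hf : trAbsPow b p X ≠ ∞) : Summable (fun k => ‖X (v k)‖ ^ p) := by
  rw [trAbsPow_eq b v hv hp0] at hf
  have h1 : ∀ k, lam k ^ (p / 2) = ‖X (v k)‖ ^ p := fun k => by
    rw [eigen_nonneg v hv k, rpow_two_mul_half (norm_nonneg _)]
  simp_rw [h1] at hf
  have := ENNReal.summable_toReal hf
  refine this.congr fun k => ?_
  rw [ENNReal.toReal_ofReal (by positivity)]

lemma tendsto_trAbsPow_left (b : HilbertBasis ℕ ℂ H) {X : H →L[ℂ] H}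
    (hX : IsCompactOperator X) {p : ℝ} (hp0 : 0 < p) (hp : p ≤ 2) (hf : trAbsPow b p X ≠ ∞) :
    Tendsto (fun m => trAbsPow b p ((1 - pr b m) * X)) atTop (𝓝 0) := by
  obtain ⟨κ, v, lam, hv⟩ := exists_eigenbasis' (Cpt.of_compact hX).1
  have hs := summable_of_trAbsPow b v hv hp0 hf
  have hlim : Tendsto (fun m => ∑' k, ‖(1 - pr b m) (X (v k))‖ ^ p) atTop (𝓝 (∑' _ : κ, (0 : ℝ))) := by
    refine tendsto_tsum_of_dominated_convergence hs (fun k => ?_) (Eventually.of_forall fun m k => ?_)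
    · have h1 := (tendsto_pr b (X (v k))).norm
      rw [norm_zero] at h1
      have h2 := h1.rpow_const (p := p) (Or.inr hp0.le)
      rwa [Real.zero_rpow hp0.ne'] at h2
    · rw [Real.norm_of_nonneg (by positivity)]
      gcongr
      exact norm_apply_one_sub_le b m _
  rw [tsum_zero] at hlim
  have hlim2 := ENNReal.tendsto_ofReal hlim
  rw [ENNReal.ofReal_zero] at hlim2
  refine tendsto_of_tendsto_of_tendsto_of_le_of_le tendsto_const_nhds hlim2
    (fun m => zero_le) (fun m => ?_)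
  have hPX : IsCompactOperator ((1 - pr b m) * X : H →L[ℂ] H) := hX.clm_comp (1 - pr b m : H →L[ℂ] H)
  refine (le_sum_norm b v (Cpt.of_compact hPX).1 hp0 hp).trans (le_of_eq ?_)
  have hsm : Summable (fun k => ‖(1 - pr b m) (X (v k))‖ ^ p) := by
    refine Summable.of_nonneg_of_le (fun k => by positivity) (fun k => ?_) hs
    gcongr
    exact norm_apply_one_sub_le b m _
  rw [ENNReal.ofReal_tsum_of_nonneg (fun k => by positivity) hsm]
  rfl

lemma tendsto_trAbsPow_right (b : HilbertBasis ℕ ℂ H) {X : H →L[ℂ] H}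
    (hX : IsCompactOperator X) {p : ℝ} (hp0 : 0 < p) (hp : p ≤ 2) (hf : trAbsPow b p X ≠ ∞) :
    Tendsto (fun m => trAbsPow b p (X * (1 - pr b m))) atTop (𝓝 0) := by
  have h := tendsto_trAbsPow_left b (compact_star b hX) hp0 hp
    (by rw [trAbsPow_star b (Cpt.of_compact hX) hp0]; exact hf)
  convert h using 1
  funext m
  have hXP : IsCompactOperator (X * (1 - pr b m) : H →L[ℂ] H) :=
    hX.comp_clm (1 - pr b m : H →L[ℂ] H)
  rw [← trAbsPow_star b (Cpt.of_compact hXP) hp0, star_mul, star_sub, star_one, pr_star]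

lemma trAbsPow_mul_pr_le (b : HilbertBasis ℕ ℂ H) {X : H →L[ℂ] H}
    (hX : IsCompactOperator X) {p : ℝ} (hp0 : 0 < p) (hp : p ≤ 2) (m : ℕ) :
    trAbsPow b p (X * pr b m) ≤ ENNReal.ofReal (m * Phi b m X ^ (p / 2)) := by
  have hXP : IsCompactOperator (X * pr b m : H →L[ℂ] H) := hX.comp_clm (pr b m)
  refine (le_sum_norm b b (Cpt.of_compact hXP).1 hp0 hp).trans ?_
  have hterm : ∀ i, (X * pr b m) (b i) = if i < m then X (b i) else 0 := by
    intro i
    have : (X * pr b m) (b i) = X (pr b m (b i)) := rfl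
    rw [this, pr_basis]
    split_ifs
    · rfl
    · exact map_zero X
  rw [tsum_eq_sum (s := Finset.range m)]
  · calc ∑ i ∈ Finset.range m, ENNReal.ofReal (‖(X * pr b m) (b i)‖ ^ p)
        ≤ ∑ i ∈ Finset.range m, ENNReal.ofReal (Phi b m X ^ (p / 2)) := by
          refine Finset.sum_le_sum fun i hi => ENNReal.ofReal_le_ofReal ?_
          rw [hterm i, if_pos (Finset.mem_range.1 hi), ← rpow_two_mul_half (norm_nonneg _)]
          exact Real.rpow_le_rpow (by positivity)
            (norm_apply_basis_sq_le_Phi b (Finset.mem_range.1 hi) X) (by positivity)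
      _ = ENNReal.ofReal (m * Phi b m X ^ (p / 2)) := by
          rw [Finset.sum_const, Finset.card_range, nsmul_eq_mul,
            ENNReal.ofReal_mul (by positivity), ENNReal.ofReal_natCast]
  · intro i hi
    rw [hterm i, if_neg (fun h => hi (Finset.mem_range.2 h)), norm_zero, Real.zero_rpow hp0.ne',
      ENNReal.ofReal_zero]

lemma gauge_trAbsPow (b : HilbertBasis ℕ ℂ H) {p : ℝ} (hp0 : 0 < p) (hp : p ≤ 2) :
    Gauge b (fun X => trAbsPow b p X) where
  add_le X Y hX hY := trAbsPow_add_le b hX hY hp0 hp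
  mul_left P X hP hX := trAbsPow_mul_left_le b hP hX hp0 hp
  mul_right P X hP hX := trAbsPow_mul_right_le b hP hX hp0 hp
  tend_left X hX hf := tendsto_trAbsPow_left b hX hp0 hp hf
  tend_right X hX hf := tendsto_trAbsPow_right b hX hp0 hp hf
  small m δ hδ := by
    obtain ⟨d, hd0, hd⟩ : ∃ d : ℝ, 0 < d ∧ ENNReal.ofReal d ≤ δ := by
      refine ⟨(min δ 1).toReal, ?_, ?_⟩
      · exact ENNReal.toReal_pos (lt_min hδ one_pos).ne' (ne_top_of_le_ne_top ENNReal.one_ne_top (min_le_right _ _))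
      · rw [ENNReal.ofReal_toReal (ne_top_of_le_ne_top ENNReal.one_ne_top (min_le_right _ _))]
        exact min_le_left _ _
    have hm : (0 : ℝ) < m + 1 := by positivity
    have hη : 0 < (d / (m + 1)) ^ (2 / p) := by positivity
    refine ⟨(d / (m + 1)) ^ (2 / p), hη, fun X hX hPhi => ?_⟩
    have key : ∀ Y : H →L[ℂ] H, IsCompactOperator Y → Phi b m Y ≤ (d / (m + 1)) ^ (2 / p) →
        trAbsPow b p (Y * pr b m) ≤ δ := by
      intro Y hY hPY
      refine (trAbsPow_mul_pr_le b hY hp0 hp m).trans ((ENNReal.ofReal_le_ofReal ?_).trans hd)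
      have h1 : Phi b m Y ^ (p / 2) ≤ d / (m + 1) := by
        calc Phi b m Y ^ (p / 2) ≤ ((d / (m + 1)) ^ (2 / p)) ^ (p / 2) :=
              Real.rpow_le_rpow (Phi_nonneg b m Y) hPY (by positivity)
          _ = d / (m + 1) := by
              rw [← Real.rpow_mul (by positivity)]
              have : 2 / p * (p / 2) = 1 := by field_simp
              rw [this, Real.rpow_one]
      calc (m : ℝ) * Phi b m Y ^ (p / 2) ≤ (m + 1) * (d / (m + 1)) := by
            gcongr
            · exact Real.rpow_nonneg (Phi_nonneg b m Y) _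
            · linarith
        _ = d := by field_simp
    constructor
    · have hPX : IsCompactOperator (pr b m * X : H →L[ℂ] H) := hX.clm_comp (pr b m)
      have h1 := key (star X) (compact_star b hX) (by rw [Phi_star]; exact hPhi)
      have h2 := trAbsPow_star b (Cpt.of_compact hPX) hp0
      rw [star_mul, pr_star] at h2
      exact h2.symm.le.trans h1
    · exact key _ hX hPhi

lemma norm_le_trAbsPow (b : HilbertBasis ℕ ℂ H) {X : H →L[ℂ] H}
    (hX : IsCompactOperator X) {p : ℝ} (hp0 : 0 < p) {t : ℝ} (ht : 0 ≤ t)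
    (hf : trAbsPow b p X ≤ ENNReal.ofReal (t ^ p)) : ‖X‖ ≤ t := by
  obtain ⟨κ, v, lam, hv⟩ := exists_eigenbasis' (Cpt.of_compact hX).1
  have hlam : ∀ k, lam k = ‖X (v k)‖ ^ 2 := eigen_nonneg v hv
  have hlam0 : ∀ k, 0 ≤ lam k := fun k => by rw [hlam k]; positivity
  rw [trAbsPow_eq b v hv hp0] at hf
  have h1 : ∀ k, lam k ≤ t ^ 2 := by
    intro k
    have h2 := (ENNReal.le_tsum k).trans hf
    rw [ENNReal.ofReal_le_ofReal_iff (by positivity), ← rpow_two_mul_half ht,
      Real.rpow_le_rpow_iff (hlam0 k) (by positivity) (by positivity)] at h2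
    exact h2
  refine ContinuousLinearMap.opNorm_le_bound _ ht fun x => ?_
  have h2 := hasSum_eigen v (isSelfAdjoint_star_mul X) hv x
  rw [re_inner_star_mul] at h2
  have h3 := (hasSum_sq v x).mul_right (t ^ 2)
  have h4 : ‖X x‖ ^ 2 ≤ ‖x‖ ^ 2 * t ^ 2 := hasSum_le (fun k => by
    have := h1 k
    gcongr) h2 h3
  rw [← mul_pow] at h4
  have h5 := (sq_le_sq₀ (norm_nonneg _) (by positivity)).1 h4
  linarith [mul_comm ‖x‖ t]

/-- additivity on disjoint operators -/
lemma trAbsPow_add_disjoint (b : HilbertBasis ℕ ℂ H) {X Y : H →L[ℂ] H}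
    (hX : IsCompactOperator X) (hY : IsCompactOperator Y) (h1 : star X * Y = 0)
    (h2 : X * star Y = 0) {p : ℝ} (hp : 0 < p) :
    trAbsPow b p (X + Y) = trAbsPow b p X + trAbsPow b p Y := by
  have h1' : star Y * X = 0 := by
    have := congrArg star h1
    rwa [star_mul, star_star, star_zero] at this
  have h2' : Y * star X = 0 := by
    have := congrArg star h2
    rwa [star_mul, star_star, star_zero] at this
  set A := star X * X with hA
  set B := star Y * Y with hB
  have hAB : A * B = 0 := by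
    calc A * B = star X * (X * star Y) * Y := by rw [hA, hB]; noncomm_ring
      _ = 0 := by rw [h2]; simp
  have hBA : B * A = 0 := by
    calc B * A = star Y * (Y * star X) * X := by rw [hA, hB]; noncomm_ring
      _ = 0 := by rw [h2']; simp
  have hZ : star (X + Y) * (X + Y) = A + B := by
    calc star (X + Y) * (X + Y) = star X * X + star X * Y + star Y * X + star Y * Y := by
          rw [star_add]; noncomm_ring
      _ = A + B := by rw [h1, h1', hA, hB]; simp
  have hA0 : 0 ≤ A := star_mul_nonneg X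
  have hB0 : 0 ≤ B := star_mul_nonneg Y
  obtain ⟨κ, g, gam, hg⟩ := exists_eigenbasis
    ((Cpt.of_compact hX).1.add (Cpt.of_compact hY).1)
    ((isSelfAdjoint_star_mul X).add (isSelfAdjoint_star_mul Y))
  have hgam : ∀ k, gam k = ‖X (g k)‖ ^ 2 + ‖Y (g k)‖ ^ 2 := gam_eq g hg
  have hs : 0 < p / 2 := by positivity
  have key : (A + B) ^ (p / 2) = A ^ (p / 2) + B ^ (p / 2) := by
    have hcomm : ∀ k, ((A + B) ^ (p / 2) : H →L[ℂ] H) (g k) =
        (A ^ (p / 2) + B ^ (p / 2) : H →L[ℂ] H) (g k) := by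
      intro k
      have hAg : A (A (g k)) = (gam k : ℂ) • A (g k) := by
        rw [← map_smul, ← hg k]
        have : A ((star X * X + star Y * Y) (g k)) = (A * A) (g k) + (A * B) (g k) := by
          rw [← hA, ← hB]
          have : (A + B) (g k) = A (g k) + B (g k) := rfl
          rw [this, map_add]
          rfl
        rw [this, hAB]
        simp
      have hBg : B (B (g k)) = (gam k : ℂ) • B (g k) := by
        rw [← map_smul, ← hg k]
        have : B ((star X * X + star Y * Y) (g k)) = (B * A) (g k) + (B * B) (g k) := by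
          rw [← hA, ← hB]
          have : (A + B) (g k) = A (g k) + B (g k) := rfl
          rw [this, map_add]
          rfl
        rw [this, hBA]
        simp
      have hABg : A (B (g k)) = ((0 : ℝ) : ℂ) • B (g k) := by
        have : A (B (g k)) = (A * B) (g k) := rfl
        rw [this, hAB]
        simp
      have hBAg : B (A (g k)) = ((0 : ℝ) : ℂ) • A (g k) := by
        have : B (A (g k)) = (B * A) (g k) := rfl
        rw [this, hBA]
        simp
      have e1 := rpow_apply_eigen hA0 hs hAg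
      have e2 := rpow_apply_eigen hB0 hs hBg
      have e3 := rpow_apply_eigen hA0 hs hABg
      have e4 := rpow_apply_eigen hB0 hs hBAg
      rw [Real.zero_rpow hs.ne'] at e3 e4
      have e0 := rpow_apply_eigen (add_nonneg hA0 hB0) hs (hg k)
      rw [e0]
      by_cases h0 : gam k = 0
      · have hx : X (g k) = 0 := by
          have := hgam k
          rw [h0] at this
          have h3 : ‖X (g k)‖ ^ 2 = 0 := by nlinarith [sq_nonneg ‖X (g k)‖, sq_nonneg ‖Y (g k)‖]
          exact norm_eq_zero.1 (pow_eq_zero_iff two_ne_zero |>.1 h3)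
        have hy : Y (g k) = 0 := by
          have := hgam k
          rw [h0] at this
          have h3 : ‖Y (g k)‖ ^ 2 = 0 := by nlinarith [sq_nonneg ‖X (g k)‖, sq_nonneg ‖Y (g k)‖]
          exact norm_eq_zero.1 (pow_eq_zero_iff two_ne_zero |>.1 h3)
        have f1 : A (g k) = ((0 : ℝ) : ℂ) • g k := by
          have : A (g k) = star X (X (g k)) := rfl
          rw [this, hx]; simp
        have f2 : B (g k) = ((0 : ℝ) : ℂ) • g k := by
          have : B (g k) = star Y (Y (g k)) := rfl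
          rw [this, hy]; simp
        have e5 := rpow_apply_eigen hA0 hs f1
        have e6 := rpow_apply_eigen hB0 hs f2
        rw [Real.zero_rpow hs.ne'] at e5 e6
        have : (A ^ (p / 2) + B ^ (p / 2) : H →L[ℂ] H) (g k) =
          (A ^ (p / 2) : H →L[ℂ] H) (g k) + (B ^ (p / 2) : H →L[ℂ] H) (g k) := rfl
        rw [this, e5, e6, h0, Real.zero_rpow hs.ne']
        simp
      · have hgc : (gam k : ℂ) ≠ 0 := by exact_mod_cast h0
        have hgk : g k = (gam k : ℂ)⁻¹ • (A (g k) + B (g k)) := by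
          have : A (g k) + B (g k) = (gam k : ℂ) • g k := hg k
          rw [this, smul_smul, inv_mul_cancel₀ hgc, one_smul]
        have : (A ^ (p / 2) + B ^ (p / 2) : H →L[ℂ] H) (g k) =
          (A ^ (p / 2) : H →L[ℂ] H) (g k) + (B ^ (p / 2) : H →L[ℂ] H) (g k) := rfl
        rw [this]
        have f1 : (A ^ (p / 2) : H →L[ℂ] H) (g k) =
            (gam k : ℂ)⁻¹ • ((gam k ^ (p / 2) : ℝ) : ℂ) • A (g k) := by
          conv_lhs => rw [hgk]
          rw [map_smul, map_add, e1, e3]
          simp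
        have f2 : (B ^ (p / 2) : H →L[ℂ] H) (g k) =
            (gam k : ℂ)⁻¹ • ((gam k ^ (p / 2) : ℝ) : ℂ) • B (g k) := by
          conv_lhs => rw [hgk]
          rw [map_smul, map_add, e2, e4]
          simp
        rw [f1, f2, ← smul_add, ← smul_add]
        conv_lhs => rw [hgk]
        rw [smul_comm]
    refine ContinuousLinearMap.ext fun x => ?_
    have hx := g.hasSum_repr x
    have t1 := hx.mapL ((A + B) ^ (p / 2) : H →L[ℂ] H)
    have t2 := hx.mapL (A ^ (p / 2) + B ^ (p / 2) : H →L[ℂ] H)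
    have t3 : (fun k => ((A + B) ^ (p / 2) : H →L[ℂ] H) (g.repr x k • g k)) =
        fun k => (A ^ (p / 2) + B ^ (p / 2) : H →L[ℂ] H) (g.repr x k • g k) := by
      funext k
      rw [map_smul, map_smul, hcomm k]
    rw [t3] at t1
    exact t1.unique t2
  unfold trAbsPow absPow
  rw [hZ, key, ← ENNReal.tsum_add]
  congr 1
  funext i
  have hnn : ∀ T : H →L[ℂ] H, 0 ≤ T → 0 ≤ RCLike.re ⟪b i, T (b i)⟫_ℂ := by
    intro T hT
    have hT' := (ContinuousLinearMap.nonneg_iff_isPositive T).1 hT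
    exact hT'.re_inner_nonneg_right (b i)
  rw [← ENNReal.ofReal_add (hnn _ CFC.rpow_nonneg) (hnn _ CFC.rpow_nonneg)]
  congr 1
  rw [← map_add, ← inner_add_right]
  rfl

end Pool.Agent.T2H72.Sch
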