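import Pool.Agent.T2H72.Sch.Diag

set_option autoImplicit false
set_option linter.unusedSectionVars false
open scoped InnerProductSpace ENNReal NNReal Topology
open Filter
open Pool.Agent.Helper526.Sch

namespace Pool.Agent.T2H72.Sch

universe u v

variable {H : Type u} [NormedAddCommGroup H] [InnerProductSpace ℂ H] [CompleteSpace H]

/-! ### The positive part: `S_2(H)` is a Hilbert space -/

section Pos

variable (b : HilbertBasis ℕ ℂ H)

/-- the rank one operator `x ↦ ⟪b 0, x⟫ u` -/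
noncomputable def rk (u : H) : H →L[ℂ] H := (innerSL ℂ (b 0)).smulRight u

lemma rk_apply (u x : H) : rk b u x = ⟪b 0, x⟫_ℂ • u := by
  simp [rk]

lemma rk_compact (u : H) : IsCompactOperator (rk b u) := by
  have h1 : IsCompactOperator (innerSL ℂ (b 0)) :=
    isCompactOperator_of_locallyCompactSpace_dom (innerSL ℂ (b 0))
  have h2 := h1.clm_comp (ContinuousLinearMap.toSpanSingleton ℂ u)
  have h3 : (rk b u : H → H) =
      (ContinuousLinearMap.toSpanSingleton ℂ u) ∘ (innerSL ℂ (b 0)) := by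
    funext x
    simp [rk_apply]
  rw [h3]
  exact h2

lemma rk_star_apply (u x : H) : star (rk b u) x = ⟪u, x⟫_ℂ • b 0 := by
  refine ext_inner_left ℂ fun y => ?_
  rw [inner_star_right, rk_apply, inner_smul_left, inner_smul_right, inner_conj_symm]
  ring

lemma rk_norm (u : H) : ‖rk b u‖ = ‖u‖ := by
  apply le_antisymm
  · refine ContinuousLinearMap.opNorm_le_bound _ (norm_nonneg _) fun x => ?_
    rw [rk_apply, norm_smul, mul_comm]
    have := norm_inner_le_norm (𝕜 := ℂ) (b 0) x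
    rw [b.orthonormal.1 0, one_mul] at this
    gcongr
  · have h1 := (rk b u).le_opNorm (b 0)
    rw [rk_apply, inner_basis, if_pos rfl, one_smul, b.orthonormal.1 0, mul_one] at h1
    exact h1

lemma trAbsPow_rk (u : H) {p : ℝ} (hp : 0 < p) :
    trAbsPow b p (rk b u) = ENNReal.ofReal (‖u‖ ^ p) := by
  have hv : ∀ k, (star (rk b u) * rk b u) (b k) =
      ((if k = 0 then ‖u‖ ^ 2 else 0 : ℝ) : ℂ) • b k := by
    intro k
    have : (star (rk b u) * rk b u) (b k) = star (rk b u) (rk b u (b k)) := rfl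
    rw [this, rk_apply, map_smul, rk_star_apply, inner_self_eq_norm_sq_to_K, inner_basis]
    by_cases hk : k = 0
    · subst hk; simp
    · rw [if_neg (Ne.symm hk), if_neg hk]; simp
  rw [trAbsPow_eq b b hv hp]
  have hterm : ∀ k, ENNReal.ofReal ((if k = 0 then ‖u‖ ^ 2 else 0 : ℝ) ^ (p / 2)) =
      if k = 0 then ENNReal.ofReal (‖u‖ ^ p) else 0 := by
    intro k
    by_cases h : k = 0
    · rw [if_pos h, if_pos h, rpow_two_mul_half (norm_nonneg _)]
    · rw [if_neg h, if_neg h, Real.zero_rpow (show p / 2 ≠ 0 by positivity), ENNReal.ofReal_zero]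
  simp_rw [hterm]
  rw [tsum_ite_eq]

lemma schattenNorm_rk (u : H) {p : ℝ≥0∞} (hp0 : p ≠ 0) :
    schattenNorm p (rk b u) = ENNReal.ofReal ‖u‖ := by
  by_cases hp : p = ∞
  · subst hp
    rw [schattenNorm_top, rk_norm]
  · have hpos := ENNReal.toReal_pos hp0 hp
    rw [schattenNorm_eq b (rk_compact b u) hp0 hp, trAbsPow_rk b u hpos,
      ENNReal.ofReal_rpow_of_nonneg (by positivity) (by positivity),
      ← Real.rpow_mul (norm_nonneg _), mul_one_div_cancel hpos.ne', Real.rpow_one]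

lemma trAbsPow_two (T : H →L[ℂ] H) :
    trAbsPow b 2 T = ∑' j, ENNReal.ofReal (‖T (b j)‖ ^ 2) := by
  unfold trAbsPow absPow
  congr 1
  funext j
  rw [div_self two_ne_zero, CFC.rpow_one _ (star_mul_nonneg T), re_inner_star_mul]

/-- the matrix coefficients of `T`, listed in one sequence -/
noncomputable def mc (T : H →L[ℂ] H) (n : ℕ) : ℂ :=
  ⟪b (Nat.unpair n).1, T (b (Nat.unpair n).2)⟫_ℂ

lemma tsum_mc (T : H →L[ℂ] H) :
    ∑' n, ENNReal.ofReal (‖mc b T n‖ ^ 2) = trAbsPow b 2 T := by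
  rw [trAbsPow_two]
  have h1 : ∑' n, ENNReal.ofReal (‖mc b T n‖ ^ 2) =
      ∑' x : ℕ × ℕ, ENNReal.ofReal (‖⟪b x.1, T (b x.2)⟫_ℂ‖ ^ 2) := by
    rw [← Nat.pairEquiv.symm.tsum_eq]
    rfl
  rw [h1, ENNReal.tsum_prod (f := fun i j => ENNReal.ofReal (‖⟪b i, T (b j)⟫_ℂ‖ ^ 2)),
    ENNReal.tsum_comm]
  congr 1
  funext j
  rw [← tsum_ofReal_inner_sq b (T (b j))]
  congr 1
  funext i
  rw [← inner_conj_symm, RCLike.norm_conj]

lemma memlp_mc {T : H →L[ℂ] H} (hT : trAbsPow b 2 T < ∞) : Memℓp (fun n => mc b T n) 2 := by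
  rw [memℓp_gen_iff (by norm_num)]
  have h1 : Summable fun n => ‖mc b T n‖ ^ 2 := by
    rw [← tsum_mc] at hT
    have := ENNReal.summable_toReal hT.ne
    refine this.congr fun n => ?_
    rw [ENNReal.toReal_ofReal (by positivity)]
  simpa using h1

/-- `S_2(H)` embeds isometrically and linearly in `H`. -/
noncomputable def UU : Schatten H 2 →ₗ[ℂ] H where
  toFun T := b.repr.symm ⟨fun n => mc b (T : H →L[ℂ] H) n, memlp_mc b (by
    have := (schattenNorm_lt_top_iff b T.2.1 (p := 2) (by norm_num) (by norm_num)).1 T.2.2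
    simpa using this)⟩
  map_add' S T := by
    rw [← map_add]
    congr 1
    ext n
    simp only [mc, Submodule.coe_add, FunLike.coe_add, Pi.add_apply, inner_add_right]
    rfl
  map_smul' c T := by
    rw [RingHom.id_apply, ← map_smul]
    congr 1
    ext n
    simp [mc]

lemma norm_UU (T : Schatten H 2) :
    ENNReal.ofReal ‖UU b T‖ = schattenNorm 2 (T : H →L[ℂ] H) := by
  have hf : trAbsPow b 2 (T : H →L[ℂ] H) < ∞ := by
    have := (schattenNorm_lt_top_iff b T.2.1 (p := 2) (by norm_num) (by norm_num)).1 T.2.2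
    simpa using this
  have h1 : ‖UU b T‖ ^ 2 = ∑' n, ‖mc b (T : H →L[ℂ] H) n‖ ^ 2 := by
    have e1 : ‖UU b T‖ = ‖(⟨fun n => mc b (T : H →L[ℂ] H) n, memlp_mc b hf⟩ :
        lp (fun _ : ℕ => ℂ) 2)‖ := by
      exact b.repr.symm.norm_map _
    rw [e1]
    have e2 := lp.norm_rpow_eq_tsum (p := 2) (by norm_num)
      (⟨fun n => mc b (T : H →L[ℂ] H) n, memlp_mc b hf⟩ : lp (fun _ : ℕ => ℂ) 2)
    simpa using e2
  have h2 : Summable fun n => ‖mc b (T : H →L[ℂ] H) n‖ ^ 2 := by
    have := ENNReal.summable_toReal (f := fun n => ENNReal.ofReal (‖mc b (T : H →L[ℂ] H) n‖ ^ 2))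
      (by rw [tsum_mc]; exact hf.ne)
    refine this.congr fun n => ?_
    rw [ENNReal.toReal_ofReal (by positivity)]
  have h3 : ENNReal.ofReal (‖UU b T‖ ^ 2) = trAbsPow b 2 (T : H →L[ℂ] H) := by
    rw [h1, ENNReal.ofReal_tsum_of_nonneg (fun _ => by positivity) h2, tsum_mc]
  rw [schattenNorm_eq b T.2.1 (by norm_num) (by norm_num)]
  have h4 : (2 : ℝ≥0∞).toReal = 2 := by norm_num
  rw [h4, ← h3, ENNReal.ofReal_rpow_of_nonneg (by positivity) (by norm_num),
    ← Real.rpow_natCast, ← Real.rpow_mul (norm_nonneg _)]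
  norm_num

include b in
theorem exists_embedding_two {p : ℝ≥0∞} (hp0 : p ≠ 0) :
    ∃ J : Schatten H 2 →ₗ[ℂ] Schatten H p,
      ∀ T : Schatten H 2, schattenNorm p (J T : H →L[ℂ] H) = schattenNorm 2 (T : H →L[ℂ] H) := by
  refine ⟨{ toFun := fun T => ⟨rk b (UU b T), rk_compact b _, ?_⟩, map_add' := ?_, map_smul' := ?_ }, ?_⟩
  · rw [schattenNorm_rk b _ hp0]
    exact ENNReal.ofReal_lt_top
  · intro S T
    apply Subtype.ext
    refine ContinuousLinearMap.ext fun x => ?_
    have : ((rk b (UU b S)) + (rk b (UU b T))) x = rk b (UU b S) x + rk b (UU b T) x := rfl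
    change rk b (UU b (S + T)) x = ((rk b (UU b S)) + (rk b (UU b T))) x
    rw [this, rk_apply, rk_apply, rk_apply, map_add, smul_add]
  · intro c T
    apply Subtype.ext
    refine ContinuousLinearMap.ext fun x => ?_
    have : (c • (rk b (UU b T))) x = c • rk b (UU b T) x := rfl
    change rk b (UU b (c • T)) x = (c • (rk b (UU b T))) x
    rw [this, rk_apply, rk_apply, map_smul, smul_comm]
  · intro T
    change schattenNorm p (rk b (UU b T)) = _
    rw [schattenNorm_rk b _ hp0, norm_UU]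

end Pos

end Pool.Agent.T2H72.Sch
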