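import Pool.Agent.Helper526.Sch.Units

set_option autoImplicit false
set_option linter.unusedSectionVars false
open scoped InnerProductSpace ENNReal NNReal Topology
open Filter
open Pool.Agent.Helper526.Sch

namespace Pool.Agent.T2H72.Sch

universe u v

variable {H : Type u} [NormedAddCommGroup H] [InnerProductSpace ℂ H] [CompleteSpace H]

/-- The orthogonal projection onto the span of the first `m` basis vectors. -/
noncomputable def pr (b : HilbertBasis ℕ ℂ H) (m : ℕ) : H →L[ℂ] H :=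
  ∑ i ∈ Finset.range m, matUnit b i i

variable (b : HilbertBasis ℕ ℂ H)

lemma pr_apply (m : ℕ) (x : H) : pr b m x = ∑ i ∈ Finset.range m, ⟪b i, x⟫_ℂ • b i := by
  simp only [pr, ContinuousLinearMap.sum_apply, matUnit_apply]

lemma pr_star (m : ℕ) : star (pr b m) = pr b m := by
  simp only [pr, star_sum, matUnit_star]

lemma pr_basis (m i : ℕ) : pr b m (b i) = if i < m then b i else 0 := by
  rw [pr_apply]
  by_cases h : i < m
  · rw [if_pos h, Finset.sum_eq_single i]
    · rw [inner_basis, if_pos rfl, one_smul]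
    · intro j _ hj
      rw [inner_basis, if_neg hj, zero_smul]
    · intro hi
      exact absurd (Finset.mem_range.2 h) hi
  · rw [if_neg h]
    refine Finset.sum_eq_zero fun j hj => ?_
    have : j ≠ i := by
      rintro rfl
      exact h (Finset.mem_range.1 hj)
    rw [inner_basis, if_neg this, zero_smul]

lemma inner_pr (m i : ℕ) (x : H) : ⟪b i, pr b m x⟫_ℂ = if i < m then ⟪b i, x⟫_ℂ else 0 := by
  have h : ⟪b i, pr b m x⟫_ℂ = ⟪pr b m (b i), x⟫_ℂ := by
    rw [← inner_star_left, pr_star]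
  rw [h, pr_basis]
  split_ifs
  · rfl
  · exact inner_zero_left _

lemma ext_basis {x y : H} (h : ∀ i, ⟪b i, x⟫_ℂ = ⟪b i, y⟫_ℂ) : x = y := by
  apply b.repr.injective
  ext i
  rw [b.repr_apply_apply, b.repr_apply_apply, h i]

lemma pr_mul_pr (m n : ℕ) : pr b m * pr b n = pr b (min m n) := by
  refine ContinuousLinearMap.ext fun x => ext_basis b fun i => ?_
  have : (pr b m * pr b n) x = pr b m (pr b n x) := rfl
  rw [this, inner_pr, inner_pr, inner_pr]
  by_cases h1 : i < m <;> by_cases h2 : i < n <;> simp [h1, h2]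

lemma norm_pr_apply_sq (m : ℕ) (x : H) :
    ‖pr b m x‖ ^ 2 = ∑ i ∈ Finset.range m, ‖⟪b i, x⟫_ℂ‖ ^ 2 := by
  have h1 := (hasSum_sq b (pr b m x))
  have h2 : HasSum (fun i => ‖⟪b i, pr b m x⟫_ℂ‖ ^ 2) (∑ i ∈ Finset.range m, ‖⟪b i, x⟫_ℂ‖ ^ 2) := by
    have h3 : ∑ i ∈ Finset.range m, ‖⟪b i, x⟫_ℂ‖ ^ 2 =
        ∑ i ∈ Finset.range m, ‖⟪b i, pr b m x⟫_ℂ‖ ^ 2 := by
      refine Finset.sum_congr rfl fun i hi => ?_
      rw [inner_pr, if_pos (Finset.mem_range.1 hi)]
    rw [h3]
    apply hasSum_sum_of_ne_finset_zero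
    intro i hi
    rw [inner_pr, if_neg (fun h => hi (Finset.mem_range.2 h))]
    simp
  exact h1.unique h2

lemma sum_le_norm_sq (s : Finset ℕ) (x : H) : ∑ i ∈ s, ‖⟪b i, x⟫_ℂ‖ ^ 2 ≤ ‖x‖ ^ 2 := by
  have h1 := (hasSum_sq b x)
  exact sum_le_hasSum s (fun i _ => by positivity) h1

/-- block projection -/
noncomputable def blk (m n : ℕ) : H →L[ℂ] H := pr b n - pr b m

lemma blk_star (m n : ℕ) : star (blk b m n) = blk b m n := by
  rw [blk, star_sub, pr_star, pr_star]

lemma inner_blk {m n : ℕ} (h : m ≤ n) (i : ℕ) (x : H) :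
    ⟪b i, blk b m n x⟫_ℂ = if m ≤ i ∧ i < n then ⟪b i, x⟫_ℂ else 0 := by
  have h0 : blk b m n x = pr b n x - pr b m x := rfl
  rw [h0, inner_sub_right, inner_pr, inner_pr]
  by_cases h1 : i < m
  · have h2 : i < n := lt_of_lt_of_le h1 h
    simp [h1, h2]
  · by_cases h2 : i < n
    · simp [h1, h2, not_lt.1 h1]
    · simp [h1, h2]

lemma norm_le_of_coef {x y : H} (h : ∀ i, ‖⟪b i, x⟫_ℂ‖ ≤ ‖⟪b i, y⟫_ℂ‖) : ‖x‖ ≤ ‖y‖ := by
  have h1 := hasSum_sq b x
  have h2 := hasSum_sq b y
  have h3 : ‖x‖ ^ 2 ≤ ‖y‖ ^ 2 := hasSum_le (fun i => by gcongr; exact h i) h1 h2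
  exact (sq_le_sq₀ (norm_nonneg _) (norm_nonneg _)).1 h3

lemma norm_blk_le {m n : ℕ} (h : m ≤ n) : ‖blk b m n‖ ≤ 1 := by
  refine ContinuousLinearMap.opNorm_le_bound _ zero_le_one fun x => ?_
  rw [one_mul]
  refine norm_le_of_coef b fun i => ?_
  rw [inner_blk b h]
  split_ifs
  · exact le_rfl
  · rw [norm_zero]; exact norm_nonneg _

lemma norm_pr_le (m : ℕ) : ‖pr b m‖ ≤ 1 := by
  refine ContinuousLinearMap.opNorm_le_bound _ zero_le_one fun x => ?_
  rw [one_mul]
  refine norm_le_of_coef b fun i => ?_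
  rw [inner_pr b]
  split_ifs
  · exact le_rfl
  · rw [norm_zero]; exact norm_nonneg _

lemma norm_one_sub_pr_le (m : ℕ) : ‖1 - pr b m‖ ≤ 1 := by
  refine ContinuousLinearMap.opNorm_le_bound _ zero_le_one fun x => ?_
  rw [one_mul]
  refine norm_le_of_coef b fun i => ?_
  have h0 : (1 - pr b m) x = x - pr b m x := rfl
  rw [h0, inner_sub_right, inner_pr b]
  split_ifs
  · simp
  · simp

lemma blk_mul_blk {m n m' n' : ℕ} (h : m ≤ n) (h' : m' ≤ n') (hd : n ≤ m') :
    blk b m n * blk b m' n' = 0 := by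
  refine ContinuousLinearMap.ext fun x => ext_basis b fun i => ?_
  have : (blk b m n * blk b m' n') x = blk b m n (blk b m' n' x) := rfl
  rw [this, inner_blk b h, inner_blk b h']
  have h1 : (0 : H →L[ℂ] H) x = 0 := rfl
  rw [h1, inner_zero_right]
  split_ifs with h2 h3
  · omega
  · rfl
  · rfl

lemma blk_mul_blk' {m n m' n' : ℕ} (h : m ≤ n) (h' : m' ≤ n') (hd : n' ≤ m) :
    blk b m n * blk b m' n' = 0 := by
  refine ContinuousLinearMap.ext fun x => ext_basis b fun i => ?_
  have : (blk b m n * blk b m' n') x = blk b m n (blk b m' n' x) := rfl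
  rw [this, inner_blk b h, inner_blk b h']
  have h1 : (0 : H →L[ℂ] H) x = 0 := rfl
  rw [h1, inner_zero_right]
  split_ifs with h2 h3
  · omega
  · rfl
  · rfl

lemma tendsto_pr (x : H) : Tendsto (fun m => (1 - pr b m) x) atTop (𝓝 0) := by
  have h1 := (b.hasSum_repr x).tendsto_sum_nat
  have h2 : ∀ m, (1 - pr b m) x = x - ∑ i ∈ Finset.range m, b.repr x i • b i := by
    intro m
    have h0 : (1 - pr b m) x = x - pr b m x := rfl
    rw [h0, pr_apply]
    congr 1
    refine Finset.sum_congr rfl fun i _ => ?_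
    rw [b.repr_apply_apply]
  simp_rw [h2]
  have := (tendsto_const_nhds (x := x)).sub h1
  simpa using this

/-- the quadratic functional measuring the first `m` rows and columns -/
noncomputable def Phi (m : ℕ) (X : H →L[ℂ] H) : ℝ :=
  ∑ i ∈ Finset.range m, (‖X (b i)‖ ^ 2 + ‖(star X) (b i)‖ ^ 2)

lemma Phi_nonneg (m : ℕ) (X : H →L[ℂ] H) : 0 ≤ Phi b m X :=
  Finset.sum_nonneg fun _ _ => by positivity

lemma Phi_zero (m : ℕ) : Phi b m (0 : H →L[ℂ] H) = 0 := by
  unfold Phi
  simp

lemma Phi_parallelogram (m : ℕ) (X Y : H →L[ℂ] H) :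
    Phi b m (X + Y) + Phi b m (X - Y) = 2 * Phi b m X + 2 * Phi b m Y := by
  unfold Phi
  rw [← Finset.sum_add_distrib, Finset.mul_sum, Finset.mul_sum, ← Finset.sum_add_distrib]
  refine Finset.sum_congr rfl fun i _ => ?_
  have h1 := parallelogram_law_with_norm ℂ (X (b i)) (Y (b i))
  have h2 := parallelogram_law_with_norm ℂ ((star X) (b i)) ((star Y) (b i))
  have e1 : (X + Y) (b i) = X (b i) + Y (b i) := rfl
  have e2 : (X - Y) (b i) = X (b i) - Y (b i) := rfl
  have e3 : (star (X + Y)) (b i) = (star X) (b i) + (star Y) (b i) := by rw [star_add]; rfl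
  have e4 : (star (X - Y)) (b i) = (star X) (b i) - (star Y) (b i) := by rw [star_sub]; rfl
  rw [e1, e2, e3, e4]
  linarith

lemma Phi_smul (m : ℕ) (c : ℂ) (X : H →L[ℂ] H) : Phi b m (c • X) = ‖c‖ ^ 2 * Phi b m X := by
  unfold Phi
  rw [Finset.mul_sum]
  refine Finset.sum_congr rfl fun i _ => ?_
  have e1 : (c • X) (b i) = c • X (b i) := rfl
  have e2 : (star (c • X)) (b i) = (star c) • (star X) (b i) := by rw [star_smul]; rfl
  rw [e1, e2, norm_smul, norm_smul, norm_star]
  ring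

lemma Phi_le (m : ℕ) (X : H →L[ℂ] H) : Phi b m X ≤ 2 * m * ‖X‖ ^ 2 := by
  unfold Phi
  have h : ∀ i ∈ Finset.range m, ‖X (b i)‖ ^ 2 + ‖(star X) (b i)‖ ^ 2 ≤ 2 * ‖X‖ ^ 2 := by
    intro i _
    have h1 := X.le_opNorm (b i)
    have h2 := (star X).le_opNorm (b i)
    rw [b.orthonormal.1 i, mul_one] at h1 h2
    rw [norm_star] at h2
    have h3 : ‖X (b i)‖ ^ 2 ≤ ‖X‖ ^ 2 := by gcongr
    have h4 : ‖(star X) (b i)‖ ^ 2 ≤ ‖X‖ ^ 2 := by gcongr
    linarith
  have := Finset.sum_le_sum h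
  rw [Finset.sum_const, Finset.card_range, nsmul_eq_mul] at this
  linarith

lemma exists_signs_le (m : ℕ) (A : ℕ → (H →L[ℂ] H)) (F : Finset ℕ) :
    ∃ s : ℕ → ℝ, (∀ n, s n = 1 ∨ s n = -1) ∧
      Phi b m (∑ n ∈ F, (s n : ℂ) • A n) ≤ ∑ n ∈ F, Phi b m (A n) := by
  classical
  induction F using Finset.induction_on with
  | empty => exact ⟨fun _ => 1, fun _ => Or.inl rfl, by simp [Phi_zero]⟩
  | insert a F ha ih =>
    obtain ⟨s, hs, hle⟩ := ih
    have hpar := Phi_parallelogram b m (∑ n ∈ F, (s n : ℂ) • A n) (A a)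
    have key : ∀ e : ℝ, e = 1 ∨ e = -1 →
        ∑ n ∈ insert a F, ((Function.update s a e n : ℝ) : ℂ) • A n =
          (∑ n ∈ F, (s n : ℂ) • A n) + (e : ℂ) • A a := by
      intro e _
      rw [Finset.sum_insert ha, Function.update_self, add_comm]
      congr 1
      refine Finset.sum_congr rfl fun n hn => ?_
      rw [Function.update_of_ne (by rintro rfl; exact ha hn)]
    by_cases hc : Phi b m ((∑ n ∈ F, (s n : ℂ) • A n) + A a) ≤
        Phi b m ((∑ n ∈ F, (s n : ℂ) • A n) - A a)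
    · refine ⟨Function.update s a 1, ?_, ?_⟩
      · intro n
        by_cases hn : n = a
        · subst hn; rw [Function.update_self]; exact Or.inl rfl
        · rw [Function.update_of_ne hn]; exact hs n
      · rw [key 1 (Or.inl rfl), Finset.sum_insert ha]
        simp only [Complex.ofReal_one, one_smul]
        linarith
    · refine ⟨Function.update s a (-1), ?_, ?_⟩
      · intro n
        by_cases hn : n = a
        · subst hn; rw [Function.update_self]; exact Or.inr rfl
        · rw [Function.update_of_ne hn]; exact hs n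
      · rw [key (-1) (Or.inr rfl), Finset.sum_insert ha]
        simp only [Complex.ofReal_neg, Complex.ofReal_one, neg_smul, one_smul]
        rw [← sub_eq_add_neg]
        rw [not_le] at hc
        linarith

lemma exists_signs_ge (m : ℕ) (A : ℕ → (H →L[ℂ] H)) (F : Finset ℕ) :
    ∃ s : ℕ → ℝ, (∀ n, s n = 1 ∨ s n = -1) ∧
      ∑ n ∈ F, Phi b m (A n) ≤ Phi b m (∑ n ∈ F, (s n : ℂ) • A n) := by
  classical
  induction F using Finset.induction_on with
  | empty => exact ⟨fun _ => 1, fun _ => Or.inl rfl, by simp [Phi_zero]⟩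
  | insert a F ha ih =>
    obtain ⟨s, hs, hle⟩ := ih
    have hpar := Phi_parallelogram b m (∑ n ∈ F, (s n : ℂ) • A n) (A a)
    have key : ∀ e : ℝ, e = 1 ∨ e = -1 →
        ∑ n ∈ insert a F, ((Function.update s a e n : ℝ) : ℂ) • A n =
          (∑ n ∈ F, (s n : ℂ) • A n) + (e : ℂ) • A a := by
      intro e _
      rw [Finset.sum_insert ha, Function.update_self, add_comm]
      congr 1
      refine Finset.sum_congr rfl fun n hn => ?_
      rw [Function.update_of_ne (by rintro rfl; exact ha hn)]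
    by_cases hc : Phi b m ((∑ n ∈ F, (s n : ℂ) • A n) - A a) ≤
        Phi b m ((∑ n ∈ F, (s n : ℂ) • A n) + A a)
    · refine ⟨Function.update s a 1, ?_, ?_⟩
      · intro n
        by_cases hn : n = a
        · subst hn; rw [Function.update_self]; exact Or.inl rfl
        · rw [Function.update_of_ne hn]; exact hs n
      · rw [key 1 (Or.inl rfl), Finset.sum_insert ha]
        simp only [Complex.ofReal_one, one_smul]
        linarith
    · refine ⟨Function.update s a (-1), ?_, ?_⟩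
      · intro n
        by_cases hn : n = a
        · subst hn; rw [Function.update_self]; exact Or.inr rfl
        · rw [Function.update_of_ne hn]; exact hs n
      · rw [key (-1) (Or.inr rfl), Finset.sum_insert ha]
        simp only [Complex.ofReal_neg, Complex.ofReal_one, neg_smul, one_smul]
        rw [← sub_eq_add_neg]
        rw [not_le] at hc
        linarith

end Pool.Agent.T2H72.Sch
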