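import Pool.Agent.T2H72.Sch.Proj

set_option autoImplicit false
set_option linter.unusedSectionVars false
open scoped InnerProductSpace ENNReal NNReal Topology
open Filter
open Pool.Agent.Helper526.Sch

namespace Pool.Agent.T2H72.Sch

universe u v

variable {H : Type u} [NormedAddCommGroup H] [InnerProductSpace ℂ H] [CompleteSpace H]

/-- the properties of `tr |X|^p` (`0 < p ≤ 2`) and of the operator norm that the gliding hump
argument uses -/
structure Gauge (b : HilbertBasis ℕ ℂ H) (G : (H →L[ℂ] H) → ℝ≥0∞) : Prop where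
  add_le : ∀ X Y : H →L[ℂ] H, IsCompactOperator X → IsCompactOperator Y →
    G (X + Y) ≤ 2 * (G X + G Y)
  mul_left : ∀ P X : H →L[ℂ] H, ‖P‖ ≤ 1 → IsCompactOperator X → G (P * X) ≤ G X
  mul_right : ∀ P X : H →L[ℂ] H, ‖P‖ ≤ 1 → IsCompactOperator X → G (X * P) ≤ G X
  tend_left : ∀ X : H →L[ℂ] H, IsCompactOperator X → G X ≠ ∞ →
    Tendsto (fun m => G ((1 - pr b m) * X)) atTop (𝓝 0)
  tend_right : ∀ X : H →L[ℂ] H, IsCompactOperator X → G X ≠ ∞ →
    Tendsto (fun m => G (X * (1 - pr b m))) atTop (𝓝 0)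
  small : ∀ (m : ℕ) (δ : ℝ≥0∞), 0 < δ → ∃ η : ℝ, 0 < η ∧ ∀ X : H →L[ℂ] H,
    IsCompactOperator X → Phi b m X ≤ η → G (pr b m * X) ≤ δ ∧ G (X * pr b m) ≤ δ

/-- normalised signed block -/
noncomputable def Cb (A : ℕ → (H →L[ℂ] H)) (α : ℝ) (F : Finset ℕ) (s : ℕ → ℝ) : H →L[ℂ] H :=
  (((F.card : ℝ) ^ (-α) : ℝ) : ℂ) • ∑ n ∈ F, (s n : ℂ) • A n

lemma compact_sum {ι : Type*} (F : Finset ι) (X : ι → (H →L[ℂ] H))
    (hX : ∀ n ∈ F, IsCompactOperator (X n)) : IsCompactOperator (∑ n ∈ F, X n : H →L[ℂ] H) := by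
  classical
  induction F using Finset.induction_on with
  | empty =>
    rw [Finset.sum_empty]
    exact isCompactOperator_zero
  | insert a F ha ih =>
    rw [Finset.sum_insert ha]
    exact (hX a (Finset.mem_insert_self _ _)).add (ih fun n hn => hX n (Finset.mem_insert_of_mem hn))

lemma Cb_compact {A : ℕ → (H →L[ℂ] H)} (hA : ∀ n, IsCompactOperator (A n)) (α : ℝ)
    (F : Finset ℕ) (s : ℕ → ℝ) : IsCompactOperator (Cb A α F s) :=
  (compact_sum F _ fun n _ => (hA n).smul (s n : ℂ)).smul _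

variable {b : HilbertBasis ℕ ℂ H}

lemma small_block {A : ℕ → (H →L[ℂ] H)} {α : ℝ} (hα : α ≠ 1 / 2)
    (hop : ∀ F : Finset ℕ, F.Nonempty → ∀ s : ℕ → ℝ, (∀ n, s n = 1 ∨ s n = -1) →
      ‖∑ n ∈ F, (s n : ℂ) • A n‖ ≤ (F.card : ℝ) ^ α) (m : ℕ) {η : ℝ} (hη : 0 < η) :
    ∃ (F : Finset ℕ) (s : ℕ → ℝ), F.Nonempty ∧ (∀ n ∈ F, m ≤ n) ∧ (∀ n, s n = 1 ∨ s n = -1) ∧
      Phi b m (Cb A α F s) ≤ η := by
  have hA1 : ∀ n, ‖A n‖ ≤ 1 := by
    intro n
    have := hop {n} (Finset.singleton_nonempty n) (fun _ => 1) (fun _ => Or.inl rfl)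
    simpa using this
  have hPA : ∀ n, Phi b m (A n) ≤ 2 * m := by
    intro n
    have h1 := Phi_le b m (A n)
    have h2 : ‖A n‖ ^ 2 ≤ 1 := by
      have := hA1 n
      have h3 := norm_nonneg (A n)
      nlinarith
    have h3 : (0 : ℝ) ≤ 2 * m := by positivity
    calc Phi b m (A n) ≤ 2 * m * ‖A n‖ ^ 2 := h1
      _ ≤ 2 * m * 1 := by gcongr
      _ = 2 * m := mul_one _
  rcases lt_or_gt_of_ne hα with h | h
  · -- `α < 1/2`
    have ht : Tendsto (fun L : ℕ => 2 * (m : ℝ) * (L : ℝ) ^ (-(1 - 2 * α))) atTop (𝓝 (2 * m * 0)) :=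
      ((tendsto_rpow_neg_atTop (by linarith : 0 < 1 - 2 * α)).comp
        tendsto_natCast_atTop_atTop).const_mul _
    rw [mul_zero] at ht
    obtain ⟨L, hL, hL1⟩ := ((ht.eventually (eventually_le_nhds hη)).and
      (eventually_ge_atTop 1)).exists
    have hLpos : (0 : ℝ) < L := by exact_mod_cast hL1
    set F := Finset.Ico m (m + L) with hF
    have hcard : (F.card : ℝ) = L := by simp [hF]
    have hFne : F.Nonempty := by
      rw [hF, Finset.nonempty_Ico]; omega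
    obtain ⟨s, hs, hle⟩ := exists_signs_ge b m A F
    have h1 := Phi_le b m (∑ n ∈ F, (s n : ℂ) • A n)
    have h2 := hop F hFne s hs
    rw [hcard] at h2
    have h3 : ‖∑ n ∈ F, (s n : ℂ) • A n‖ ^ 2 ≤ (L : ℝ) ^ (2 * α) := by
      calc ‖∑ n ∈ F, (s n : ℂ) • A n‖ ^ 2 ≤ ((L : ℝ) ^ α) ^ 2 := by gcongr
        _ = (L : ℝ) ^ (2 * α) := by
          rw [← Real.rpow_natCast, ← Real.rpow_mul hLpos.le]; congr 1; push_cast; ring
    have h4 : ∑ n ∈ F, Phi b m (A n) ≤ 2 * m * (L : ℝ) ^ (2 * α) := by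
      calc ∑ n ∈ F, Phi b m (A n) ≤ _ := hle
        _ ≤ _ := h1
        _ ≤ _ := by gcongr
    have h5 : ∃ n ∈ F, Phi b m (A n) ≤ η := by
      by_contra hcon
      push Not at hcon
      have h6 : ∑ n ∈ F, η < ∑ n ∈ F, Phi b m (A n) := Finset.sum_lt_sum_of_nonempty hFne hcon
      rw [Finset.sum_const, nsmul_eq_mul, hcard] at h6
      have h7 : 2 * (m : ℝ) * (L : ℝ) ^ (2 * α) = L * (2 * m * (L : ℝ) ^ (-(1 - 2 * α))) := by
        have : (L : ℝ) ^ (2 * α) = L * (L : ℝ) ^ (-(1 - 2 * α)) := by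
          nth_rewrite 2 [← Real.rpow_one (L : ℝ)]
          rw [← Real.rpow_add hLpos]
          congr 1
          ring
        rw [this]
        ring
      have h8 : L * (2 * m * (L : ℝ) ^ (-(1 - 2 * α))) ≤ L * η := by gcongr
      linarith
    obtain ⟨n, hn, hn2⟩ := h5
    refine ⟨{n}, fun _ => 1, Finset.singleton_nonempty n, ?_, fun _ => Or.inl rfl, ?_⟩
    · intro k hk
      rw [Finset.mem_singleton] at hk
      subst hk
      exact (Finset.mem_Ico.1 hn).1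
    · have : Cb A α {n} (fun _ => 1) = A n := by
        simp [Cb]
      rw [this]
      exact hn2
  · -- `α > 1/2`
    have ht : Tendsto (fun L : ℕ => 2 * (m : ℝ) * (L : ℝ) ^ (-(2 * α - 1))) atTop (𝓝 (2 * m * 0)) :=
      ((tendsto_rpow_neg_atTop (by linarith : 0 < 2 * α - 1)).comp
        tendsto_natCast_atTop_atTop).const_mul _
    rw [mul_zero] at ht
    obtain ⟨L, hL, hL1⟩ := ((ht.eventually (eventually_le_nhds hη)).and
      (eventually_ge_atTop 1)).exists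
    have hLpos : (0 : ℝ) < L := by exact_mod_cast hL1
    set F := Finset.Ico m (m + L) with hF
    have hcard : (F.card : ℝ) = L := by simp [hF]
    have hFne : F.Nonempty := by
      rw [hF, Finset.nonempty_Ico]; omega
    obtain ⟨s, hs, hle⟩ := exists_signs_le b m A F
    refine ⟨F, s, hFne, fun n hn => (Finset.mem_Ico.1 hn).1, hs, ?_⟩
    rw [Cb, Phi_smul, hcard]
    have h1 : ∑ n ∈ F, Phi b m (A n) ≤ L * (2 * m) := by
      calc ∑ n ∈ F, Phi b m (A n) ≤ ∑ n ∈ F, (2 * m : ℝ) := Finset.sum_le_sum fun n _ => hPA n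
        _ = L * (2 * m) := by rw [Finset.sum_const, nsmul_eq_mul, hcard]
    have h2 : ‖(((L : ℝ) ^ (-α) : ℝ) : ℂ)‖ ^ 2 = (L : ℝ) ^ (-(2 * α)) := by
      rw [Complex.norm_real, Real.norm_of_nonneg (Real.rpow_nonneg hLpos.le _),
        ← Real.rpow_natCast, ← Real.rpow_mul hLpos.le]
      congr 1; push_cast; ring
    rw [h2]
    calc (L : ℝ) ^ (-(2 * α)) * Phi b m (∑ n ∈ F, (s n : ℂ) • A n)
        ≤ (L : ℝ) ^ (-(2 * α)) * (L * (2 * m)) := by
          gcongr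
          exact hle.trans h1
      _ = 2 * (m : ℝ) * (L : ℝ) ^ (-(2 * α - 1)) := by
          have : (L : ℝ) ^ (-(2 * α - 1)) = (L : ℝ) ^ (-(2 * α)) * L := by
            nth_rewrite 3 [← Real.rpow_one (L : ℝ)]
            rw [← Real.rpow_add hLpos]
            congr 1
            ring
          rw [this]
          ring
      _ ≤ η := hL

lemma step {G : (H →L[ℂ] H) → ℝ≥0∞} (hG : Gauge b G) {A : ℕ → (H →L[ℂ] H)}
    (hA : ∀ n, IsCompactOperator (A n)) {α : ℝ} (hα : α ≠ 1 / 2)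
    (hop : ∀ F : Finset ℕ, F.Nonempty → ∀ s : ℕ → ℝ, (∀ n, s n = 1 ∨ s n = -1) →
      ‖∑ n ∈ F, (s n : ℂ) • A n‖ ≤ (F.card : ℝ) ^ α)
    (hfin : ∀ F : Finset ℕ, F.Nonempty → ∀ s : ℕ → ℝ, (∀ n, s n = 1 ∨ s n = -1) →
      G (Cb A α F s) ≠ ∞)
    (m : ℕ) {δ : ℝ≥0∞} (hδ : 0 < δ) :
    ∃ (m' : ℕ) (F : Finset ℕ) (s : ℕ → ℝ), m ≤ m' ∧ F.Nonempty ∧ F ⊆ Finset.Ico m m' ∧
      (∀ n, s n = 1 ∨ s n = -1) ∧
      G (Cb A α F s - blk b m m' * Cb A α F s * blk b m m') ≤ δ := by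
  have h16 : (16 : ℝ≥0∞) ≠ 0 := by norm_num
  have h16' : (16 : ℝ≥0∞) ≠ ∞ := by norm_num
  have hδ' : 0 < δ / 16 := ENNReal.div_pos hδ.ne' h16'
  obtain ⟨η, hη, hsm⟩ := hG.small m (δ / 16) hδ'
  obtain ⟨F, s, hFne, hFm, hs, hPhi⟩ := small_block (b := b) hα hop m hη
  set C := Cb A α F s with hC
  have hCc : IsCompactOperator C := Cb_compact hA α F s
  obtain ⟨hL, hR⟩ := hsm C hCc hPhi
  have hf := hfin F hFne s hs
  have e1 := (hG.tend_left C hCc hf).eventually (eventually_le_nhds hδ')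
  have e2 := (hG.tend_right C hCc hf).eventually (eventually_le_nhds hδ')
  have e3 : ∀ᶠ k in atTop, F ⊆ Finset.Ico m k := by
    filter_upwards [eventually_ge_atTop (F.sup id + 1)] with k hk n hn
    rw [Finset.mem_Ico]
    refine ⟨hFm n hn, ?_⟩
    have : n ≤ F.sup id := Finset.le_sup (f := id) hn
    omega
  obtain ⟨m', ⟨⟨h1, h2⟩, h3⟩, h4⟩ := (((e1.and e2).and e3).and (eventually_ge_atTop m)).exists
  refine ⟨m', F, s, h4, hFne, h3, hs, ?_⟩
  set R := blk b m m' with hRdef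
  set P := pr b m with hP
  set P' := pr b m' with hP'
  have hRle : ‖R‖ ≤ 1 := norm_blk_le b h4
  have hdec : C - R * C * R = ((1 - P') * C + P * C) + R * (C * (1 - P') + C * P) := by
    have : R = P' - P := rfl
    rw [this]
    noncomm_ring
  rw [hdec]
  have c1 : IsCompactOperator ((1 - P') * C : H →L[ℂ] H) := hCc.clm_comp (1 - P' : H →L[ℂ] H)
  have c2 : IsCompactOperator (P * C : H →L[ℂ] H) := hCc.clm_comp P
  have c3 : IsCompactOperator (C * (1 - P') : H →L[ℂ] H) := hCc.comp_clm (1 - P' : H →L[ℂ] H)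
  have c4 : IsCompactOperator (C * P : H →L[ℂ] H) := hCc.comp_clm P
  have c5 : IsCompactOperator ((1 - P') * C + P * C : H →L[ℂ] H) := c1.add c2
  have c6 : IsCompactOperator (C * (1 - P') + C * P : H →L[ℂ] H) := c3.add c4
  have c7 : IsCompactOperator (R * (C * (1 - P') + C * P) : H →L[ℂ] H) := c6.clm_comp R
  calc G (((1 - P') * C + P * C) + R * (C * (1 - P') + C * P))
      ≤ 2 * (G ((1 - P') * C + P * C) + G (R * (C * (1 - P') + C * P))) := hG.add_le _ _ c5 c7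
    _ ≤ 2 * (2 * (G ((1 - P') * C) + G (P * C)) + G (C * (1 - P') + C * P)) := by
        gcongr
        · exact hG.add_le _ _ c1 c2
        · exact hG.mul_left _ _ hRle c6
    _ ≤ 2 * (2 * (G ((1 - P') * C) + G (P * C)) + 2 * (G (C * (1 - P')) + G (C * P))) := by
        gcongr
        exact hG.add_le _ _ c3 c4
    _ ≤ 2 * (2 * (δ / 16 + δ / 16) + 2 * (δ / 16 + δ / 16)) := by
        gcongr
    _ = (δ / 16) * 16 := by ring
    _ = δ := ENNReal.div_mul_cancel h16 h16'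
    _ ≤ δ := le_rfl

/-- The gliding hump sequence. -/
lemma exists_hump {G : (H →L[ℂ] H) → ℝ≥0∞} (hG : Gauge b G) {A : ℕ → (H →L[ℂ] H)}
    (hA : ∀ n, IsCompactOperator (A n)) {α : ℝ} (hα : α ≠ 1 / 2)
    (hop : ∀ F : Finset ℕ, F.Nonempty → ∀ s : ℕ → ℝ, (∀ n, s n = 1 ∨ s n = -1) →
      ‖∑ n ∈ F, (s n : ℂ) • A n‖ ≤ (F.card : ℝ) ^ α)
    (hfin : ∀ F : Finset ℕ, F.Nonempty → ∀ s : ℕ → ℝ, (∀ n, s n = 1 ∨ s n = -1) →
      G (Cb A α F s) ≠ ∞)
    (δ : ℕ → ℝ≥0∞) (hδ : ∀ j, 0 < δ j) :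
    ∃ (M : ℕ → ℕ) (F : ℕ → Finset ℕ) (s : ℕ → ℕ → ℝ), (∀ j, M j ≤ M (j + 1)) ∧
      (∀ j, (F j).Nonempty) ∧ (∀ j, F j ⊆ Finset.Ico (M j) (M (j + 1))) ∧
      (∀ j n, s j n = 1 ∨ s j n = -1) ∧
      ∀ j, G (Cb A α (F j) (s j) - blk b (M j) (M (j + 1)) * Cb A α (F j) (s j) *
        blk b (M j) (M (j + 1))) ≤ δ j := by
  choose f F s h1 h2 h3 h4 h5 using fun (j m : ℕ) =>
    step hG hA hα hop hfin m (hδ j)
  let M : ℕ → ℕ := fun j => Nat.rec 0 (fun j m => f j m) j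
  have hM : ∀ j, M (j + 1) = f j (M j) := fun j => rfl
  refine ⟨M, fun j => F j (M j), fun j => s j (M j), ?_, ?_, ?_, ?_, ?_⟩
  · intro j; rw [hM]; exact h1 _ _
  · intro j; exact h2 _ _
  · intro j; rw [hM]; exact h3 _ _
  · intro j n; exact h4 _ _ _
  · intro j; rw [hM]; exact h5 _ _

end Pool.Agent.T2H72.Sch
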